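import Pool.Agent.Lib.MP_1e50ba_an.Pieces

set_option autoImplicit false

namespace Pool.Agent.Lib.MP_1e50ba_an

/-- pigeonhole over blocks of exact `4`-orders -/
theorem pigeon (S : Finset ℕ) (K : ℕ → ℤ) (m M : ℕ) (hm : m ≤ M) (hS : S.card ≤ m) :
    ∃ u ≤ m, ∀ s ∈ S, ∀ t : ℕ, (M + 1) * (M - u) + 1 ≤ t → t ≤ (M + 1) * (M - u) + (M + 1) →
      ¬ ((4 : ℤ) ^ t ∣ K s ∧ ¬ (4 : ℤ) ^ (t + 1) ∣ K s) := by
  by_contra hcon
  push Not at hcon
  choose! s hs t ht1 ht2 ht3 ht4 using hcon
  have hcard : S.card < (Finset.range (m + 1)).card := by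
    rw [Finset.card_range]; omega
  obtain ⟨u, hu, v, hv, huv, he⟩ := Finset.exists_ne_map_eq_of_card_lt_of_maps_to hcard
    (f := s) (fun u hu => hs u (by simpa [Nat.lt_succ_iff] using hu))
  have key : ∀ u v, u ≤ m → v ≤ m → u < v → s u = s v → False := by
    intro u v hu hv huv he
    have h1 := ht1 u hu
    have h2 := ht2 v hv
    have h3 := ht3 u hu
    have h4 := ht4 v hv
    apply h4
    rw [← he]
    refine dvd_trans (pow_dvd_pow _ ?_) h3
    have h5 : (M + 1) * (M - v + 1) ≤ (M + 1) * (M - u) := Nat.mul_le_mul_left _ (by omega)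
    have h6 : (M + 1) * (M - v + 1) = (M + 1) * (M - v) + (M + 1) := by ring
    omega
  have hu' : u ≤ m := by simpa [Nat.lt_succ_iff] using hu
  have hv' : v ≤ m := by simpa [Nat.lt_succ_iff] using hv
  rcases lt_or_gt_of_ne huv with h | h
  · exact key u v hu' hv' h he
  · exact key v u hv' hu' h he.symm

/-- the difference of an odd multiple of `4^(l-i')` and `4^(l-i)(4b+2)` has `4`-order
`l-i'` or `l-i`. -/
theorem exact_order (l i i' b B : ℕ) (hi : i ≤ l) (hi' : i' ≤ l) (hB : B % 2 = 0) :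
    ∃ t : ℕ, t = l - max i i' ∧
      (4 : ℤ) ^ t ∣ ((4 : ℤ) ^ (l - i') * (B + 1) - 4 ^ (l - i) * (4 * b + 2)) ∧
      ¬ (4 : ℤ) ^ (t + 1) ∣ ((4 : ℤ) ^ (l - i') * (B + 1) - 4 ^ (l - i) * (4 * b + 2)) := by
  rcases le_or_gt i i' with h | h
  · refine ⟨l - i', by rw [max_eq_right h], ?_, ?_⟩
    · have : l - i = (l - i') + (i' - i) := by omega
      rw [this, pow_add, mul_assoc, ← mul_sub]
      exact dvd_mul_right _ _
    · have : l - i = (l - i') + (i' - i) := by omega
      rw [pow_succ, this, pow_add, mul_assoc, ← mul_sub]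
      intro hd
      have := Int.dvd_of_mul_dvd_mul_left (by positivity) hd
      have h2 : (2 : ℤ) ∣ ((B : ℤ) + 1 - 4 ^ (i' - i) * (4 * b + 2)) :=
        dvd_trans (by norm_num) this
      have h3 : (2 : ℤ) ∣ 4 ^ (i' - i) * (4 * b + 2) := Dvd.dvd.mul_left (by omega) _
      have h4 : (2 : ℤ) ∣ (B : ℤ) + 1 := by
        have := dvd_add h2 h3
        simpa using this
      omega
  · refine ⟨l - i, by rw [max_eq_left h.le], ?_, ?_⟩
    · have : l - i' = (l - i) + (i - i') := by omega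
      rw [this, pow_add, mul_assoc, ← mul_sub]
      exact dvd_mul_right _ _
    · have : l - i' = (l - i) + (i - i') := by omega
      rw [pow_succ, this, pow_add, mul_assoc, ← mul_sub]
      intro hd
      have := Int.dvd_of_mul_dvd_mul_left (by positivity) hd
      have h3 : (4 : ℤ) ∣ 4 ^ (i - i') * ((B : ℤ) + 1) :=
        Dvd.dvd.mul_right (dvd_pow_self _ (by omega)) _
      have h4 : (4 : ℤ) ∣ (4 * (b : ℤ) + 2) := by
        have := dvd_sub h3 this
        simpa using this
      omega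

/-- uniqueness of the decomposition `4^a * odd` -/
theorem unique_dec (a b u v : ℕ) (hu : u % 2 = 0) (hv : v % 2 = 0)
    (h : (4 : ℤ) ^ a * (u + 1) = 4 ^ b * (v + 1)) : a = b ∧ u = v := by
  have key : ∀ a b u v : ℕ, u % 2 = 0 → v % 2 = 0 → (4 : ℤ) ^ a * (u + 1) = 4 ^ b * (v + 1) →
      a ≤ b := by
    intro a b u v hu hv h
    by_contra hlt
    have : a = b + (a - b) := by omega
    rw [this, pow_add, mul_assoc] at h
    have h1 := mul_left_cancel₀ (by positivity) h
    have h2 : (2 : ℤ) ∣ 4 ^ (a - b) * ((u : ℤ) + 1) :=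
      Dvd.dvd.mul_right (dvd_trans (by norm_num) (dvd_pow_self _ (by omega : a - b ≠ 0))) _
    rw [h1] at h2
    omega
  have hab : a = b := le_antisymm (key a b u v hu hv h) (key b a v u hv hu h.symm)
  subst hab
  have h1 := mul_left_cancel₀ (by positivity) h
  exact ⟨rfl, by omega⟩

theorem n_mul_q (n : ℕ) : (n : ℝ) * q n ≤ 1 / 4 := by
  have h : 4 * n ≤ 4 ^ n := by
    induction n with
    | zero => simp
    | succ n ih =>
      rw [pow_succ]
      rcases Nat.eq_zero_or_pos n with h | h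
      · subst h; simp
      · omega
  have h' : (4 : ℝ) * n ≤ 4 ^ n := by exact_mod_cast h
  have h2 := q_mul_pow n
  have h3 := q_pos n
  nlinarith

end Pool.Agent.Lib.MP_1e50ba_an
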