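import Mathlib

set_option autoImplicit false

namespace Pool.Agent.Lib.MP_1e50ba_an

open Set Function

section Brouwer

variable {X : Type} (U : ℕ → Set X)

open Classical in
/-- first index splitting a set -/
noncomputable def idx (C : Set X) : ℕ :=
  if h : ∃ n, (C ∩ U n).Nonempty ∧ (C \ U n).Nonempty then Nat.find h else 0

/-- pieces attached to a binary sequence -/
noncomputable def piece (a : ℕ → Bool) : ℕ → Set X
  | 0 => univ
  | k + 1 => if a k then piece a k ∩ U (idx U (piece a k)) else piece a k \ U (idx U (piece a k))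

open Classical in
/-- pieces containing a point -/
noncomputable def pieceOf (x : X) : ℕ → Set X
  | 0 => univ
  | k + 1 => if x ∈ U (idx U (pieceOf x k)) then pieceOf x k ∩ U (idx U (pieceOf x k))
      else pieceOf x k \ U (idx U (pieceOf x k))

open Classical in
/-- code of a point -/
noncomputable def code (x : X) (k : ℕ) : Bool := decide (x ∈ U (idx U (pieceOf U x k)))

theorem mem_pieceOf (x : X) (k : ℕ) : x ∈ pieceOf U x k := by
  induction k with
  | zero => trivial
  | succ k ih =>
    rw [pieceOf]
    split_ifs with h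
    · exact ⟨ih, h⟩
    · exact ⟨ih, h⟩

theorem pieceOf_eq_of_mem (x y : X) (k : ℕ) (h : y ∈ pieceOf U x k) :
    pieceOf U y k = pieceOf U x k := by
  induction k with
  | zero => rfl
  | succ k ih =>
    rw [pieceOf] at h
    have hy : y ∈ pieceOf U x k := by
      split_ifs at h with h'
      · exact h.1
      · exact h.1
    have e := ih hy
    rw [pieceOf, pieceOf, e]
    split_ifs at h with h'
    · rw [if_pos h', if_pos h.2]
    · rw [if_neg h', if_neg h.2]

theorem pieceOf_antitone (x : X) (k : ℕ) : pieceOf U x (k + 1) ⊆ pieceOf U x k := by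
  rw [pieceOf]
  split_ifs
  · exact inter_subset_left
  · exact sdiff_subset

theorem code_eq_of_mem (x y : X) (k : ℕ) (h : y ∈ pieceOf U x (k + 1)) :
    code U y k = code U x k := by
  have h1 := pieceOf_eq_of_mem U x y k (pieceOf_antitone U x k h)
  rw [pieceOf] at h
  rw [code, code, decide_eq_decide, h1]
  split_ifs at h with h'
  · exact ⟨fun _ => h', fun _ => h.2⟩
  · exact ⟨fun h'' => absurd h'' h.2, fun h'' => absurd h'' h'⟩

variable [TopologicalSpace X] (hU : ∀ n, IsClopen (U n))

include hU in
theorem isClopen_pieceOf (x : X) (k : ℕ) : IsClopen (pieceOf U x k) := by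
  induction k with
  | zero => exact isClopen_univ
  | succ k ih =>
    rw [pieceOf]
    split_ifs
    · exact ih.inter (hU _)
    · exact ih.diff (hU _)

include hU in
theorem isClopen_piece (a : ℕ → Bool) (k : ℕ) : IsClopen (piece U a k) := by
  induction k with
  | zero => exact isClopen_univ
  | succ k ih =>
    rw [piece]
    split_ifs
    · exact ih.inter (hU _)
    · exact ih.diff (hU _)

omit [TopologicalSpace X] in
theorem piece_antitone (a : ℕ → Bool) (k : ℕ) : piece U a (k + 1) ⊆ piece U a k := by
  rw [piece]
  split_ifs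
  · exact inter_subset_left
  · exact sdiff_subset

omit [TopologicalSpace X] in
theorem pieceOf_eq_piece (a : ℕ → Bool) (x : X) (h : ∀ k, x ∈ piece U a k) (k : ℕ) :
    pieceOf U x k = piece U a k ∧ code U x k = a k := by
  have key : ∀ k, pieceOf U x k = piece U a k := by
    intro k
    induction k with
    | zero => rfl
    | succ k ih =>
      have hx := h (k + 1)
      rw [piece] at hx ⊢
      rw [pieceOf, ih]
      by_cases ha : a k
      · rw [if_pos ha] at hx ⊢
        rw [if_pos hx.2]
      · rw [if_neg ha] at hx ⊢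
        rw [if_neg hx.2]
  refine ⟨key k, ?_⟩
  have hx := h (k + 1)
  rw [piece] at hx
  have h2 : (a k = true ↔ x ∈ U (idx U (pieceOf U x k))) := by
    rw [key k]
    by_cases ha : a k
    · rw [if_pos ha] at hx
      exact ⟨fun _ => hx.2, fun _ => ha⟩
    · rw [if_neg ha] at hx
      exact ⟨fun h' => absurd h' ha, fun h' => absurd h' hx.2⟩
  rw [code, Bool.eq_iff_iff]
  exact (@decide_eq_true_iff _ (_)).trans h2.symm

include hU in
theorem homeo_cantor [CompactSpace X] [T2Space X] [Nonempty X]
    (hsep : ∀ x y, x ≠ y → ∃ n, ¬ (x ∈ U n ↔ y ∈ U n))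
    (hperf : ∀ V : Set X, IsOpen V → V.Nonempty → ∃ x ∈ V, ∃ y ∈ V, x ≠ y) :
    Nonempty (X ≃ₜ (ℕ → Bool)) := by
  classical
  -- every nonempty open set is split by some index
  have hsplit : ∀ V : Set X, IsOpen V → V.Nonempty →
      ∃ n, (V ∩ U n).Nonempty ∧ (V \ U n).Nonempty := by
    intro V hV hne
    obtain ⟨x, hx, y, hy, hxy⟩ := hperf V hV hne
    obtain ⟨n, hn⟩ := hsep x y hxy
    refine ⟨n, ?_⟩
    by_cases h : x ∈ U n
    · have h' : y ∉ U n := fun h' => hn ⟨fun _ => h', fun _ => h⟩
      exact ⟨⟨x, hx, h⟩, ⟨y, hy, h'⟩⟩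
    · have h' : y ∈ U n := by
        by_contra h'
        exact hn ⟨fun h'' => absurd h'' h, fun h'' => absurd h'' h'⟩
      exact ⟨⟨y, hy, h'⟩, ⟨x, hx, h⟩⟩
  have hidx : ∀ V : Set X, IsOpen V → V.Nonempty →
      (V ∩ U (idx U V)).Nonempty ∧ (V \ U (idx U V)).Nonempty := by
    intro V hV hne
    have h := hsplit V hV hne
    rw [idx, dif_pos h]
    exact Nat.find_spec h
  have hpne : ∀ a k, (piece U a k).Nonempty := by
    intro a k
    induction k with
    | zero => exact univ_nonempty
    | succ k ih =>
      have := hidx _ (isClopen_piece U hU a k).isOpen ih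
      rw [piece]
      split_ifs
      · exact this.1
      · exact this.2
  -- surjectivity
  have hsurj : Surjective (code U) := by
    intro a
    have hne : (⋂ k, piece U a k).Nonempty := by
      apply IsCompact.nonempty_iInter_of_sequence_nonempty_isCompact_isClosed
      · exact fun k => piece_antitone U a k
      · exact hpne a
      · exact (isClopen_piece U hU a 0).isClosed.isCompact
      · exact fun k => (isClopen_piece U hU a k).isClosed
    obtain ⟨x, hx⟩ := hne
    refine ⟨x, ?_⟩
    ext k
    have := (pieceOf_eq_piece U a x (fun k => mem_iInter.mp hx k) k).2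
    rw [this]
  -- injectivity
  have hinj : Injective (code U) := by
    intro x y hxy
    by_contra hne
    obtain ⟨m, hm⟩ := hsep x y hne
    have hmem : ∀ k, y ∈ pieceOf U x k := by
      intro k
      induction k with
      | zero => trivial
      | succ k ih =>
        have e := pieceOf_eq_of_mem U x y k ih
        have hc := congrFun hxy k
        simp only [code, e] at hc
        have hc' : (x ∈ U (idx U (pieceOf U x k)) ↔ y ∈ U (idx U (pieceOf U x k))) := by
          simpa using hc
        rw [pieceOf]
        split_ifs with h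
        · exact ⟨ih, hc'.mp h⟩
        · exact ⟨ih, fun h' => h (hc'.mpr h')⟩
    -- the split indices are at most `m`
    have hle : ∀ k, idx U (pieceOf U x k) ≤ m := by
      intro k
      have h : ∃ n, (pieceOf U x k ∩ U n).Nonempty ∧ (pieceOf U x k \ U n).Nonempty := by
        refine ⟨m, ?_⟩
        by_cases h : x ∈ U m
        · have h' : y ∉ U m := fun h' => hm ⟨fun _ => h', fun _ => h⟩
          exact ⟨⟨x, mem_pieceOf U x k, h⟩, ⟨y, hmem k, h'⟩⟩
        · have h' : y ∈ U m := by
            by_contra h'
            exact hm ⟨fun h'' => absurd h'' h, fun h'' => absurd h'' h'⟩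
          exact ⟨⟨y, hmem k, h'⟩, ⟨x, mem_pieceOf U x k, h⟩⟩
      rw [idx, dif_pos h]
      apply Nat.find_le
      by_cases h : x ∈ U m
      · have h' : y ∉ U m := fun h' => hm ⟨fun _ => h', fun _ => h⟩
        exact ⟨⟨x, mem_pieceOf U x k, h⟩, ⟨y, hmem k, h'⟩⟩
      · have h' : y ∈ U m := by
          by_contra h'
          exact hm ⟨fun h'' => absurd h'' h, fun h'' => absurd h'' h'⟩
        exact ⟨⟨y, hmem k, h'⟩, ⟨x, mem_pieceOf U x k, h⟩⟩
    -- the split indices are pairwise distinct
    have hsub : ∀ j k, j ≤ k → pieceOf U x k ⊆ pieceOf U x j := by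
      intro j k hjk
      induction k, hjk using Nat.le_induction with
      | base => exact subset_rfl
      | succ k _ ih => exact (pieceOf_antitone U x k).trans ih
    have hne2 : ∀ j k, j < k → idx U (pieceOf U x j) ≠ idx U (pieceOf U x k) := by
      intro j k hjk h
      have h1 := hidx _ (isClopen_pieceOf U hU x k).isOpen ⟨x, mem_pieceOf U x k⟩
      have h2 := hsub (j + 1) k hjk
      rw [← h] at h1
      rw [pieceOf] at h2
      split_ifs at h2 with h3
      · obtain ⟨z, hz1, hz2⟩ := h1.2
        exact hz2 (h2 hz1).2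
      · obtain ⟨z, hz1, hz2⟩ := h1.1
        exact (h2 hz1).2 hz2
    have hinj' : Injective (fun k : ℕ => (⟨idx U (pieceOf U x k), Nat.lt_succ_of_le (hle k)⟩ :
        Fin (m + 1))) := by
      intro j k h
      have h' : idx U (pieceOf U x j) = idx U (pieceOf U x k) := congrArg Fin.val h
      rcases lt_trichotomy j k with hjk | hjk | hjk
      · exact absurd h' (hne2 j k hjk)
      · exact hjk
      · exact absurd h'.symm (hne2 k j hjk)
    exact not_injective_infinite_finite _ hinj'
  -- continuity
  have hcont : Continuous (code U) := by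
    rw [continuous_pi_iff]
    intro k
    rw [continuous_discrete_rng]
    intro b
    rw [isOpen_iff_mem_nhds]
    intro x hx
    have hopen := (isClopen_pieceOf U hU x (k + 1)).isOpen
    filter_upwards [hopen.mem_nhds (mem_pieceOf U x (k + 1))] with y hy
    rw [mem_preimage, mem_singleton_iff] at hx ⊢
    rw [code_eq_of_mem U x y k hy]
    exact hx
  exact ⟨hcont.homeoOfEquivCompactToT2 (f := Equiv.ofBijective (code U) ⟨hinj, hsurj⟩)⟩

end Brouwer

end Pool.Agent.Lib.MP_1e50ba_an
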