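import Pool.Agent.Lib.MP_1e50ba_an.Step

set_option autoImplicit false
set_option maxHeartbeats 4000000

namespace Pool.Agent.Lib.MP_1e50ba_an

open Set MeasureTheory

theorem card_le_two (F : Finset ℕ) (h : ∀ a ∈ F, ∀ b ∈ F, a < b → b = a + 1) : F.card ≤ 2 := by
  rcases F.eq_empty_or_nonempty with rfl | hne
  · simp
  · set a := F.min' hne with ha
    have hsub : F ⊆ {a, a + 1} := by
      intro b hb
      have hle := F.min'_le b hb
      rcases hle.lt_or_eq with h1 | h1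
      · have := h a (F.min'_mem hne) b hb h1
        simp [this]
      · simp [ha, h1]
    exact (Finset.card_le_card hsub).trans Finset.card_le_two

/-- location of the gap of branch `N1` -/
theorem gap_location (j0 e N1 : ℕ) (y0 : ℝ) (h1 : f j0 N1 ≤ y0) (h2 : y0 ≤ f j0 N1 + R j0) :
    ∃ b : ℕ, b / 4 ^ e = N1 ∧ 4 * b * q (j0 + e + 1) ≤ y0 + dl j0 N1 ∧
      y0 + dl j0 N1 ≤ (4 * b + 4) * q (j0 + e + 1) := by
  have hR := R_lt j0
  have hq := q_pos j0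
  have hqe := q_pos e
  have hf : f j0 N1 = N1 * q j0 - dl j0 N1 := rfl
  set x := y0 + dl j0 N1 with hx
  have hx1 : (N1 : ℝ) * q j0 ≤ x := by linarith
  have hx2 : x < (N1 + 1 : ℝ) * q j0 := by linarith
  have hx0 : 0 ≤ x := le_trans (by positivity) hx1
  have hqq : q (j0 + e) = q j0 * q e := q_add _ _
  have hs := q_succ (j0 + e)
  have hpos := q_pos (j0 + e)
  have hxd : 0 ≤ x / q (j0 + e) := by positivity
  refine ⟨⌊x / q (j0 + e)⌋₊, ?_, ?_, ?_⟩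
  · rw [Nat.div_eq_iff (by positivity)]
    have hqm := q_mul_pow e
    have a1 : (N1 : ℝ) * 4 ^ e ≤ x / q (j0 + e) := by
      rw [le_div_iff₀ hpos, hqq]
      calc (N1 : ℝ) * 4 ^ e * (q j0 * q e) = N1 * q j0 * (q e * 4 ^ e) := by ring
        _ = N1 * q j0 := by rw [hqm, mul_one]
        _ ≤ x := hx1
    have a2 : x / q (j0 + e) < ((N1 + 1 : ℕ) : ℝ) * 4 ^ e := by
      rw [div_lt_iff₀ hpos, hqq]
      calc x < (N1 + 1 : ℝ) * q j0 := hx2
        _ = (N1 + 1 : ℝ) * q j0 * (q e * 4 ^ e) := by rw [hqm, mul_one]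
        _ = _ := by push_cast; ring
    constructor
    · apply Nat.le_floor
      push_cast
      exact a1
    · have : ⌊x / q (j0 + e)⌋₊ < (N1 + 1) * 4 ^ e := by
        apply (Nat.floor_lt hxd).mpr
        push_cast at a2 ⊢
        exact a2
      have e1 : (N1 + 1) * 4 ^ e = N1 * 4 ^ e + 4 ^ e := by ring
      omega
  · have := Nat.floor_le hxd
    rw [le_div_iff₀ hpos] at this
    obtain ⟨b, hb⟩ : ∃ b, b = ⌊x / q (j0 + e)⌋₊ := ⟨_, rfl⟩
    rw [← hb] at this ⊢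
    rw [hs] at this
    linarith
  · have := (Nat.lt_floor_add_one (x / q (j0 + e))).le
    rw [div_le_iff₀ hpos] at this
    obtain ⟨b, hb⟩ : ∃ b, b = ⌊x / q (j0 + e)⌋₊ := ⟨_, rfl⟩
    rw [← hb] at this ⊢
    rw [hs] at this
    linarith

theorem anc_gap (e N1 b r : ℕ) (hr : r < 4) (hb : b / 4 ^ e = N1) :
    (4 * b + r) / 4 ^ (e + 1) = N1 := by
  rw [pow_succ', ← Nat.div_div_eq_div_mul]
  rw [show (4 * b + r) / 4 = b by omega, hb]

/-- inside the gap no level `i` piece of branch `N1` is met -/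
theorem no_branch (j0 e N1 b : ℕ) (hb : b / 4 ^ e = N1) (hC : C j0 ≤ q (j0 + e + 1) / 4)
    (ρ y : ℝ) (hρ : 0 < ρ)
    (hi : 4 * c (j0 + e + 1) ≤ q (j0 + e + 1))
    (hy1 : f (j0 + e + 1) (4 * b + 2) - c (j0 + e + 1) + 2 * ρ ≤ y)
    (hy2 : y ≤ f (j0 + e + 1) (4 * b + 2) - 2 * ρ)
    (B : ℕ) (hB : B / 4 ^ (e + 1) = N1) : ¬ Meets (j0 + e + 1) y ρ B := by
  rintro ⟨h1, h2⟩
  have hanc := anc_gap e N1 b 2 (by norm_num) hb
  have d1 := dl_anc_le j0 (e + 1) (4 * b + 2)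
  have d2 := dl_le_anc j0 (e + 1) (4 * b + 2)
  have d3 := dl_anc_le j0 (e + 1) B
  have d4 := dl_le_anc j0 (e + 1) B
  have d5 := C_nonneg (j0 + (e + 1))
  rw [hanc] at d1 d2
  rw [hB] at d3 d4
  rw [← add_assoc] at d1 d2 d3 d4 d5
  have hq := q_pos (j0 + e + 1)
  have hR := R_lt (j0 + e + 1)
  have hf1 : f (j0 + e + 1) (4 * b + 2) = (4 * b + 2 : ℝ) * q (j0 + e + 1) -
    dl (j0 + e + 1) (4 * b + 2) := by unfold f; push_cast; ring
  have hf2 : f (j0 + e + 1) B = (B : ℝ) * q (j0 + e + 1) - dl (j0 + e + 1) B := rfl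
  have hcases : B ≤ 4 * b ∨ B = 4 * b + 1 ∨ B = 4 * b + 2 ∨ 4 * b + 3 ≤ B := by omega
  rcases hcases with h | h | h | h
  · have hc : (B : ℝ) ≤ 4 * b := by exact_mod_cast h
    have : (B : ℝ) * q (j0 + e + 1) ≤ 4 * b * q (j0 + e + 1) :=
      mul_le_mul_of_nonneg_right hc hq.le
    linarith
  · subst h
    have hw := (junction_width (j0 + e) (4 * b + 1) (by omega)).2 (by omega)
    have hC' := C_pos (j0 + e + 1)
    have : f (j0 + e + 1) (4 * b + 1 + 1) = f (j0 + e + 1) (4 * b + 2) := rfl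
    rw [this] at hw
    linarith
  · subst h
    linarith
  · have hc : (4 * b + 3 : ℝ) ≤ B := by exact_mod_cast h
    have : (4 * b + 3 : ℝ) * q (j0 + e + 1) ≤ (B : ℝ) * q (j0 + e + 1) :=
      mul_le_mul_of_nonneg_right hc hq.le
    linarith

theorem q_mul_pow_sub {i l : ℕ} (h : i ≤ l) : q i * 4 ^ l = 4 ^ (l - i) := by
  have h1 := q_mul_pow i
  have : l = i + (l - i) := by omega
  rw [this, pow_add, ← mul_assoc, h1, one_mul]
  congr 1
  omega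

theorem junction_in_X (j0 H e b N1 s M u : ℕ) (he : e + 1 ≤ H) (hb : b / 4 ^ e = N1)
    (hl : H = (e + 1) + ((M + 1) * (M - u) + (M + 1)))
    (y ρ : ℝ) (hρ : 0 < ρ) (hρ2 : 2 * ρ < 4 / 5 * (q (j0 + H) * q (j0 + H)))
    (hq0 : q j0 * q j0 ≤ q (j0 + H) / 16)
    (hy1 : f (j0 + e + 1) (4 * b + 2) - c (j0 + e + 1) ≤ y)
    (hy2 : y ≤ f (j0 + e + 1) (4 * b + 2))
    (hK : ∀ t : ℕ, (M + 1) * (M - u) + 1 ≤ t → t ≤ (M + 1) * (M - u) + (M + 1) →
      ¬ ((4 : ℤ) ^ t ∣ round ((dl j0 s - dl j0 N1) * 4 ^ (j0 + H)) ∧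
        ¬ (4 : ℤ) ^ (t + 1) ∣ round ((dl j0 s - dl j0 N1) * 4 ^ (j0 + H))))
    (B B' : ℕ) (hlt : B < B') (hB : B / 4 ^ H = s) (hB' : B' / 4 ^ H = s)
    (h1 : Meets (j0 + H) y ρ B) (h2 : Meets (j0 + H) y ρ B') :
    ∃ i' B'' : ℕ, j0 + e + 1 + M + 1 ≤ i' ∧ i' ≤ j0 + H ∧ B'' % 2 = 0 ∧
      (4 : ℤ) ^ (j0 + H - i') * (B'' + 1) = round ((dl j0 s - dl j0 N1) * 4 ^ (j0 + H)) +
        4 ^ (j0 + H - (j0 + e + 1)) * (4 * b + 2) ∧
      f i' (B'' + 1) - ρ ≤ y ∧ y ≤ f i' (B'' + 1) + q i' * q i' + ρ := by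
  have hql := q_pos (j0 + H)
  have hql1 := q_le_one (j0 + H)
  have hql2 : q (j0 + H) ≤ 1 / 4 := q_le_quarter (by omega)
  obtain ⟨u', hu', B'', hB1, hB2, hB3, hB4⟩ := lemmaZ j0 H B B' y ρ (by nlinarith) hlt
    (hB.trans hB'.symm) h2.1 h1.2
  rw [hB] at hB1
  have hqi : q (j0 + H) ≤ q (j0 + u' + 1) := q_anti (by omega)
  have hc := c_ge (k := j0 + u' + 1) (by omega)
  have hCn := C_nonneg (j0 + u' + 1)
  have heven : B'' % 2 = 0 := by
    by_contra hodd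
    have := (junction_width (j0 + u') B'' hB2).2 (by omega)
    nlinarith
  have hw := junction_width_le (j0 + u') B'' hB2
  -- rounding
  have hanc := anc_gap e N1 b 2 (by norm_num) hb
  have d1 := dl_anc_le j0 (e + 1) (4 * b + 2)
  have d2 := dl_le_anc j0 (e + 1) (4 * b + 2)
  have d3 := dl_anc_le j0 (u' + 1) (B'' + 1)
  have d4 := dl_le_anc j0 (u' + 1) (B'' + 1)
  have d5 := C_nonneg (j0 + (e + 1))
  have hB5 : (B'' + 1) / 4 ^ (u' + 1) = s := by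
    rw [← hB1, pow_succ', ← Nat.div_div_eq_div_mul, ← Nat.div_div_eq_div_mul, hB2]
  rw [hanc] at d1 d2
  rw [hB5] at d3 d4
  rw [← add_assoc] at d1 d2 d3 d4 d5
  have hf1 : f (j0 + e + 1) (4 * b + 2) = (4 * b + 2 : ℝ) * q (j0 + e + 1) -
    dl (j0 + e + 1) (4 * b + 2) := by unfold f; push_cast; ring
  have hf2 : f (j0 + u' + 1) (B'' + 1) = (B'' + 1 : ℝ) * q (j0 + u' + 1) -
    dl (j0 + u' + 1) (B'' + 1) := by unfold f; push_cast; ring
  have hc1 := c_le_sq (j0 + e + 1)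
  have hCj0 := C_le j0
  have hqj1 := q_succ j0
  have hqj1' := q_pos (j0 + 1)
  have q1 : q (j0 + e + 1) ≤ q (j0 + 1) := q_anti (by omega)
  have q1' := q_pos (j0 + e + 1)
  have q2 : q (j0 + u' + 1) ≤ q (j0 + 1) := q_anti (by omega)
  have q2' := q_pos (j0 + u' + 1)
  have s1 : q (j0 + e + 1) * q (j0 + e + 1) ≤ q j0 * q j0 / 16 := by
    rw [hqj1]; nlinarith
  have s2 : q (j0 + u' + 1) * q (j0 + u' + 1) ≤ q j0 * q j0 / 16 := by
    rw [hqj1]; nlinarith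
  have s3 : q (j0 + H) * q (j0 + H) ≤ q (j0 + H) / 4 := by nlinarith
  have hX1 : (B'' + 1 : ℝ) * q (j0 + u' + 1) - (4 * b + 2 : ℝ) * q (j0 + e + 1) -
      (dl j0 s - dl j0 N1) < q (j0 + H) / 2 := by linarith
  have hX2 : -(q (j0 + H) / 2) < (B'' + 1 : ℝ) * q (j0 + u' + 1)
      - (4 * b + 2 : ℝ) * q (j0 + e + 1) - (dl j0 s - dl j0 N1) := by linarith
  have e1 := q_mul_pow_sub (i := j0 + u' + 1) (l := j0 + H) (by omega)
  have e2 := q_mul_pow_sub (i := j0 + e + 1) (l := j0 + H) (by omega)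
  have e3 := q_mul_pow (j0 + H)
  have hp : (0 : ℝ) < 4 ^ (j0 + H) := by positivity
  have hY1 := mul_lt_mul_of_pos_right hX1 hp
  have hY2 := mul_lt_mul_of_pos_right hX2 hp
  have hround := abs_sub_round ((dl j0 s - dl j0 N1) * 4 ^ (j0 + H))
  rw [abs_le] at hround
  have hint : (4 : ℤ) ^ (j0 + H - (j0 + u' + 1)) * (B'' + 1) -
      4 ^ (j0 + H - (j0 + e + 1)) * (4 * b + 2) =
      round ((dl j0 s - dl j0 N1) * 4 ^ (j0 + H)) := by
    have h3 : ((B'' + 1 : ℝ) * q (j0 + u' + 1) - (4 * b + 2 : ℝ) * q (j0 + e + 1) -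
      (dl j0 s - dl j0 N1)) * 4 ^ (j0 + H) = 4 ^ (j0 + H - (j0 + u' + 1)) * (B'' + 1) -
      4 ^ (j0 + H - (j0 + e + 1)) * (4 * b + 2) - (dl j0 s - dl j0 N1) * 4 ^ (j0 + H) := by
      rw [← e1, ← e2]; ring
    rw [h3] at hY1 hY2
    have e4 : q (j0 + H) / 2 * 4 ^ (j0 + H) = 1 / 2 := by linarith
    have e5 : -(q (j0 + H) / 2) * 4 ^ (j0 + H) = -(1 / 2) := by linarith
    rw [e4] at hY1
    rw [e5] at hY2
    have h4 : ((((4 : ℤ) ^ (j0 + H - (j0 + u' + 1)) * (B'' + 1) -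
      4 ^ (j0 + H - (j0 + e + 1)) * (4 * b + 2) -
      round ((dl j0 s - dl j0 N1) * 4 ^ (j0 + H)) : ℤ)) : ℝ) < 1 := by
      push_cast
      linarith [hround.1, hround.2]
    have h5 : (-1 : ℝ) < ((((4 : ℤ) ^ (j0 + H - (j0 + u' + 1)) * (B'' + 1) -
      4 ^ (j0 + H - (j0 + e + 1)) * (4 * b + 2) -
      round ((dl j0 s - dl j0 N1) * 4 ^ (j0 + H)) : ℤ)) : ℝ) := by
      push_cast
      linarith [hround.1, hround.2]
    have h4' : ((4 : ℤ) ^ (j0 + H - (j0 + u' + 1)) * (B'' + 1) -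
      4 ^ (j0 + H - (j0 + e + 1)) * (4 * b + 2) -
      round ((dl j0 s - dl j0 N1) * 4 ^ (j0 + H)) : ℤ) < 1 := by exact_mod_cast h4
    have h5' : -1 < ((4 : ℤ) ^ (j0 + H - (j0 + u' + 1)) * (B'' + 1) -
      4 ^ (j0 + H - (j0 + e + 1)) * (4 * b + 2) -
      round ((dl j0 s - dl j0 N1) * 4 ^ (j0 + H)) : ℤ) := by exact_mod_cast h5
    omega
  refine ⟨j0 + u' + 1, B'', ?_, by omega, heven, by linarith, by linarith, by linarith⟩
  by_contra hlt2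
  push Not at hlt2
  obtain ⟨t, ht, ht1, ht2⟩ := exact_order (j0 + H) (j0 + e + 1) (j0 + u' + 1) b B''
    (by omega) (by omega) heven
  rw [hint] at ht1 ht2
  apply hK t _ _ ⟨ht1, ht2⟩
  · rcases le_total (j0 + e + 1) (j0 + u' + 1) with h | h
    · rw [max_eq_right h] at ht; omega
    · rw [max_eq_left h] at ht; omega
  · rcases le_total (j0 + e + 1) (j0 + u' + 1) with h | h
    · rw [max_eq_right h] at ht; omega
    · rw [max_eq_left h] at ht; omega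

end Pool.Agent.Lib.MP_1e50ba_an
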