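import Pool.Agent.Lib.MP_1e50ba_an.Main

set_option autoImplicit false
set_option maxHeartbeats 4000000

namespace Pool.Agent.Lib.MP_1e50ba_an

open Set MeasureTheory

open Classical in
theorem empty_interior (E : Set ℝ)
    (hE : ∀ y ∈ E, ∀ j, ∃ N < 4 ^ j, f j N ≤ y ∧ y ≤ f j N + R j) (x x' : ℝ) (hx : x < x') :
    ∃ z, x < z ∧ z < x' ∧ z ∉ E := by
  obtain ⟨a, ha1, ha⟩ : ∃ a : ℕ, 1 ≤ a ∧ 4 * q a ≤ x' - x := by
    obtain ⟨n, hn⟩ := exists_pow_lt_of_lt_one (show 0 < x' - x by linarith)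
      (show (1 / 4 : ℝ) < 1 by norm_num)
    refine ⟨n + 1, by omega, ?_⟩
    have h1 := q_succ n
    have h2 : q n = (1 / 4) ^ n := rfl
    linarith
  obtain ⟨M, hMdef⟩ : ∃ M : ℕ, M = 4 ^ a := ⟨_, rfl⟩
  have hM : 1 ≤ M := by rw [hMdef]; exact Nat.one_le_pow _ _ (by norm_num)
  obtain ⟨κ, hκ⟩ : ∃ κ : ℝ, κ = 1 / (64 * M) := ⟨_, rfl⟩
  have hM' : (1 : ℝ) ≤ M := by exact_mod_cast hM
  have hκ0 : 0 < κ := by rw [hκ]; positivity
  have hκM : κ * M = 1 / 64 := by rw [hκ]; field_simp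
  have hκ1 : κ ≤ 1 / 64 := by nlinarith
  obtain ⟨J, hJ⟩ := claim E hE M hM κ hκ M le_rfl
  obtain ⟨Q, hQ⟩ : ∃ Q, Q = q a := ⟨_, rfl⟩
  have hQ0 : 0 < Q := by rw [hQ]; exact q_pos a
  have hQ1 : Q ≤ 1 / 4 := by rw [hQ]; exact q_le_quarter ha1
  have hMQ : (M : ℝ) * Q = 1 := by
    rw [hMdef, hQ, mul_comm]; push_cast; exact q_mul_pow a
  obtain ⟨ρ, hρ⟩ : ∃ ρ, ρ = κ * q (a + J) := ⟨_, rfl⟩
  have hqJ := q_pos J
  have hqJ1 := q_le_one J
  have hρ0 : 0 < ρ := by rw [hρ]; exact mul_pos hκ0 (q_pos _)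
  have hρ1 : ρ ≤ Q / 64 := by
    rw [hρ, q_add, ← hQ]
    have h1 : Q * q J ≤ Q := by nlinarith
    have h2 : 0 < Q * q J := by positivity
    nlinarith
  have hρM : M * ρ * J ≤ Q / 256 := by
    have h1 : M * ρ * J = (κ * M) * Q * (J * q J) := by rw [hρ, q_add, ← hQ]; ring
    rw [h1, hκM]
    have h2 := n_mul_q J
    have h3 : 1 / 64 * Q * (J * q J) ≤ 1 / 64 * Q * (1 / 4) :=
      mul_le_mul_of_nonneg_left h2 (by positivity)
    linarith
  have hvol := volume_bad (Finset.range M) a J (x + Q / 2) (3 * Q) κ (by positivity) hκ0.le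
    (by linarith)
  rw [← hρ, ← hQ, Finset.card_range] at hvol
  have hpoint : ∃ y, x + Q / 2 ≤ y ∧ y ≤ x + Q / 2 + 3 * Q ∧ y ∉ Bad (Finset.range M) a J ρ := by
    by_contra hcon
    push Not at hcon
    have hsub : Icc (x + Q / 2) (x + Q / 2 + 3 * Q) ⊆
        Bad (Finset.range M) a J ρ ∩ Icc (x + Q / 2) (x + Q / 2 + 3 * Q) :=
      fun y hy => ⟨hcon y hy.1 hy.2, hy⟩
    have h1 := (measure_mono hsub).trans hvol
    rw [Real.volume_Icc, add_sub_cancel_left, ENNReal.ofReal_le_ofReal_iff (by positivity)] at h1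
    have e : (M : ℝ) * ((3 * Q + 2 * ρ + Q * Q / 15) * Q / 3 + Q * Q / 15 +
        8 / 3 * κ * (3 * Q + 2 * ρ + Q * Q / 15) + 2 * ρ * J) =
        (M * Q) * (3 * Q + 2 * ρ + Q * Q / 15) / 3 + (M * Q) * Q / 15 +
        8 / 3 * (κ * M) * (3 * Q + 2 * ρ + Q * Q / 15) + 2 * (M * ρ * J) := by ring
    rw [e, hMQ, hκM] at h1
    nlinarith
  obtain ⟨y, hy1, hy2, hybad⟩ := hpoint
  let S : Finset ℕ := (Finset.range (4 ^ (a + J))).filter (fun N => Meets (a + J) y ρ N)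
  have hmaps : ∀ N ∈ S, N / 4 ^ J ∈ Finset.range M := by
    intro N hN
    simp only [S, Finset.mem_filter, Finset.mem_range] at hN ⊢
    apply Nat.div_lt_of_lt_mul
    rw [hMdef, ← pow_add, add_comm J a]
    exact hN.1
  have hinj : Set.InjOn (fun N => N / 4 ^ J) (S : Set ℕ) := by
    have key : ∀ N N' : ℕ, N ∈ S → N' ∈ S → N < N' → N / 4 ^ J = N' / 4 ^ J → False := by
      intro N N' hN hN' hlt heq
      have hs := hmaps N hN
      simp only [S, Finset.mem_filter, Finset.mem_range] at hN hN'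
      exact hybad ⟨N, N', hlt, heq, hs, hN'.2.1, hN.2.2⟩
    intro N hN N' hN' heq
    rcases lt_trichotomy N N' with h | h | h
    · exact (key N N' hN hN' h heq).elim
    · exact h
    · exact (key N' N hN' hN h heq.symm).elim
  have hcard : S.card ≤ M := by
    have := Finset.card_le_card_of_injOn _ hmaps hinj
    rwa [Finset.card_range] at this
  obtain ⟨z, hz, hzE⟩ := hJ (a + J) (by omega) y S hcard (by
    intro N hN hNm
    rw [← hρ] at hNm
    simp only [S, Finset.mem_filter, Finset.mem_range]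
    exact ⟨hN, hNm⟩)
  rw [← hρ, abs_le] at hz
  rw [← hQ] at ha
  exact ⟨z, by linarith [hz.1], by linarith [hz.2], hzE⟩

end Pool.Agent.Lib.MP_1e50ba_an
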