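import Pool.Agent.Lib.MP_1e50ba_an.Claim

set_option autoImplicit false
set_option maxHeartbeats 4000000

namespace Pool.Agent.Lib.MP_1e50ba_an

open Set MeasureTheory

open Classical in
theorem claim_step (E : Set ℝ) (hE : ∀ y ∈ E, ∀ j, ∃ N < 4 ^ j, f j N ≤ y ∧ y ≤ f j N + R j)
    (M : ℕ) (hM : 1 ≤ M) (κ : ℝ) (hκ : κ = 1 / (64 * M)) (m : ℕ) (hm : m + 1 ≤ M) (J : ℕ)
    (IH : ∀ j ≥ J, ∀ y : ℝ, ∀ S : Finset ℕ, S.card ≤ m →
      (∀ N < 4 ^ j, Meets j y (κ * q j) N → N ∈ S) → ∃ y', |y' - y| ≤ κ * q j ∧ y' ∉ E)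
    (j0 : ℕ) (hj0 : J ≤ j0) (hj0' : M + 4 + (M + 1) * (M + 1) + 2 ≤ j0) (y0 : ℝ)
    (S : Finset ℕ) (hS : S.card ≤ m + 1)
    (hmeet : ∀ N < 4 ^ j0, Meets j0 y0 (κ * q j0) N → N ∈ S) :
    ∃ y', |y' - y0| ≤ κ * q j0 ∧ y' ∉ E := by
  have hM' : (1 : ℝ) ≤ M := by exact_mod_cast hM
  have hκ0 : 0 < κ := by rw [hκ]; positivity
  have hκM : κ * M = 1 / 64 := by rw [hκ]; field_simp
  have hκ1 : κ ≤ 1 / 64 := by nlinarith
  have hqj0 := q_pos j0
  by_cases hex : ∃ N1 < 4 ^ j0, f j0 N1 ≤ y0 ∧ y0 ≤ f j0 N1 + R j0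
  swap
  · exact ⟨y0, by rw [sub_self, abs_zero]; positivity, fun h => hex (hE y0 h j0)⟩
  obtain ⟨N1, hN1, hlo, hhi⟩ := hex
  have hN1S : N1 ∈ S := hmeet N1 hN1 ⟨by nlinarith, by nlinarith⟩
  set S' := S.erase N1 with hS'def
  have hS' : S'.card ≤ m := by rw [hS'def, Finset.card_erase_of_mem hN1S]; omega
  obtain ⟨H, hH⟩ : ∃ H, H = M + 4 + (M + 1) * (M + 1) := ⟨_, rfl⟩
  obtain ⟨u, hu, hK⟩ := pigeon S' (fun s => round ((dl j0 s - dl j0 N1) * 4 ^ (j0 + H))) m M
    (by omega) hS'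
  obtain ⟨e, he⟩ : ∃ e, e = M + 3 + (M + 1) * u := ⟨_, rfl⟩
  have hHe : H = (e + 1) + ((M + 1) * (M - u) + (M + 1)) := by
    obtain ⟨d, hd⟩ : ∃ d, M = u + d := ⟨M - u, by omega⟩
    rw [hH, he, show M - u = d by omega]
    have : (M + 1) * (M + 1) = (M + 1) * u + (M + 1) * d + (M + 1) := by
      rw [hd]; ring
    omega
  have hMu : 0 ≤ (M + 1) * (M - u) := Nat.zero_le _
  obtain ⟨b, hb1, hb2, hb3⟩ := gap_location j0 e N1 y0 hlo hhi
  obtain ⟨i, hi⟩ : ∃ i, i = j0 + e + 1 := ⟨_, rfl⟩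
  obtain ⟨l, hl⟩ : ∃ l, l = j0 + H := ⟨_, rfl⟩
  have hil : i + M + 1 ≤ l := by omega
  have hqi := q_pos i
  have hql := q_pos l
  have hi1 : 1 ≤ i := by omega
  -- smallness of `q j0 * q j0`
  have hq0 : q j0 * q j0 ≤ q l / 16 := by
    have h1 : q j0 ≤ q (H + 2) := q_anti (by omega)
    have h2 : q j0 * q j0 ≤ q j0 * q (H + 2) := mul_le_mul_of_nonneg_left h1 hqj0.le
    rw [← q_add j0 (H + 2)] at h2
    have h3 := q_succ (j0 + H)
    have h4 := q_succ (j0 + H + 1)
    rw [hl]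
    have : j0 + (H + 2) = j0 + H + 1 + 1 := by omega
    rw [this] at h2
    linarith
  have hqlqi : q l ≤ q i := q_anti (by omega)
  have hCj0 : C j0 ≤ q l / 240 := by
    have := C_le j0
    linarith
  have hCn := C_nonneg j0
  have hci := c_le_sq i
  have hci2 := c_ge hi1
  have hqi4 : q i ≤ 1 / 1024 := by
    have : q i ≤ q 5 := q_anti (by omega)
    have h5 : q 5 = 1 / 1024 := by norm_num [q]
    linarith
  have hci3 : c i ≤ q i / 1024 := by nlinarith
  -- the scale rho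
  obtain ⟨ρ, hρ⟩ : ∃ ρ, ρ = κ * q (3 * l) := ⟨_, rfl⟩
  have e3 : q (3 * l) = q l * q l * q l := by
    rw [show 3 * l = l + l + l by omega, q_add, q_add]
  have hρ0 : 0 < ρ := by rw [hρ]; exact mul_pos hκ0 (q_pos _)
  have hql1 : q l ≤ 1 / 1024 := by linarith
  have hρ1 : ρ ≤ q l * q l / 4096 := by
    rw [hρ, e3]
    have h1 : 0 < q l * q l := by positivity
    have h2 : q l * q l * q l ≤ q l * q l / 1024 := by nlinarith
    have h3 : 0 < q l * q l * q l := by positivity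
    nlinarith
  have hρ2 : ρ ≤ q l / 4096 := by nlinarith
  -- the gap
  obtain ⟨z, hz⟩ : ∃ z, z = f i (4 * b + 2) := ⟨_, rfl⟩
  have hanc := anc_gap e N1 b 2 (by norm_num) hb1
  have d1 := dl_anc_le j0 (e + 1) (4 * b + 2)
  have d2 := dl_le_anc j0 (e + 1) (4 * b + 2)
  have d5 := C_nonneg (j0 + (e + 1))
  rw [hanc] at d1 d2
  rw [← add_assoc, ← hi] at d1 d2 d5
  have hf1 : z = (4 * b + 2 : ℝ) * q i - dl i (4 * b + 2) := by rw [hz]; unfold f; push_cast; ring
  rw [← hi] at hb2 hb3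
  have hzlo : z ≤ y0 + 2 * q i := by linarith
  have hzhi : y0 - 2 * q i - q i / 240 ≤ z := by linarith
  have hκq : 3 * q i ≤ κ * q j0 := by
    have h1 : q i ≤ q (j0 + (M + 4)) := q_anti (by omega)
    rw [q_add, q_add] at h1
    have h4 : q 4 = 1 / 256 := by norm_num [q]
    have h5 : (M : ℝ) * q M ≤ 1 / 4 := n_mul_q M
    have h5' : (M : ℝ) ≤ 4 ^ M := by
      have := Nat.lt_pow_self (n := M) (show 1 < 4 by norm_num)
      exact_mod_cast this.le
    have h7 : (M : ℝ) * q M ≤ 1 := by linarith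
    have h6 : q M ≤ 64 * κ := by
      have h8 : 64 * κ * M = 1 := by linarith
      have h9 : q M * M ≤ 64 * κ * M := by linarith
      exact le_of_mul_le_mul_right h9 (by linarith)
    rw [h4] at h1
    have h10 : q j0 * (q M * (1 / 256)) ≤ q j0 * (64 * κ * (1 / 256)) := by
      apply mul_le_mul_of_nonneg_left _ hqj0.le
      linarith
    have h11 : 0 < κ * q j0 := by positivity
    linarith
  have hwin : ∀ y, z - c i + 2 * ρ ≤ y → y ≤ z - 2 * ρ → |y - y0| + ρ ≤ κ * q j0 := by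
    intro y h1 h2
    have : |y - y0| ≤ 3 * q i - ρ := by
      rw [abs_le]
      constructor <;> linarith
    linarith
  -- level `l` pieces of the other branches that come near the gap
  let Sl : Finset ℕ := (Finset.range (4 ^ l)).filter
    (fun B => B / 4 ^ H ∈ S' ∧ f l B ≤ z ∧ z - c i ≤ f l B + R l)
  have hSl : Sl.card ≤ 2 * S'.card := by
    apply Finset.card_le_mul_card_image_of_maps_to (f := fun B => B / 4 ^ H)
    · intro B hB
      exact (Finset.mem_filter.mp hB).2.1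
    · intro s hs
      apply card_le_two
      intro a ha a' ha' hlt
      simp only [Sl, Finset.mem_filter] at ha ha'
      obtain ⟨⟨_, _, _, ha3⟩, ha4⟩ := ha
      obtain ⟨⟨_, _, ha2', _⟩, ha4'⟩ := ha'
      by_contra hne
      have hge : a + 2 ≤ a' := by omega
      have g1 := dl_anc_le j0 H a
      have g2 := dl_le_anc j0 H a'
      have g3 := C_nonneg (j0 + H)
      rw [ha4, ← hl] at g1
      rw [ha4', ← hl] at g2
      rw [← hl] at g3
      have k1 : f l a = a * q l - dl l a := rfl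
      have k2 : f l a' = a' * q l - dl l a' := rfl
      have hR := R_lt l
      have hcast : (a + 2 : ℝ) ≤ a' := by exact_mod_cast hge
      have k3 : (a + 2 : ℝ) * q l ≤ a' * q l := mul_le_mul_of_nonneg_right hcast hql.le
      have k4 : c i ≤ q l / 16 := by
        have h1 : q i ≤ q j0 := q_anti (by omega)
        have h2 : q i * q i ≤ q j0 * q j0 := mul_le_mul h1 h1 hqi.le hqj0.le
        linarith
      linarith
  -- extra bad sets
  let X : ℕ → Set ℝ := fun s => {y | ∃ i' B'' : ℕ, i + M + 1 ≤ i' ∧ i' ≤ l ∧ B'' % 2 = 0 ∧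
      (4 : ℤ) ^ (l - i') * (B'' + 1) = round ((dl j0 s - dl j0 N1) * 4 ^ l) +
        4 ^ (l - i) * (4 * b + 2) ∧
      f i' (B'' + 1) - ρ ≤ y ∧ y ≤ f i' (B'' + 1) + q i' * q i' + ρ}
  have hX : ∀ s, volume (X s) ≤ ENNReal.ofReal (q (i + M + 1) * q (i + M + 1) + 2 * ρ) := by
    intro s
    by_cases h : ∃ i' B'' : ℕ, i + M + 1 ≤ i' ∧ i' ≤ l ∧ B'' % 2 = 0 ∧
      (4 : ℤ) ^ (l - i') * (B'' + 1) = round ((dl j0 s - dl j0 N1) * 4 ^ l) +
        4 ^ (l - i) * (4 * b + 2)
    · obtain ⟨i', B'', h1, h2, h3, h4⟩ := h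
      have hsub : X s ⊆ Icc (f i' (B'' + 1) - ρ) (f i' (B'' + 1) + q i' * q i' + ρ) := by
        rintro y ⟨i2, B2, g1, g2, g3, g4, g5, g6⟩
        rw [← g4] at h4
        obtain ⟨k1, k2⟩ := unique_dec _ _ _ _ h3 g3 h4
        have : i' = i2 := by omega
        subst this
        subst k2
        exact ⟨g5, g6⟩
      refine (measure_mono hsub).trans ?_
      rw [Real.volume_Icc]
      apply ENNReal.ofReal_le_ofReal
      have h5 : q i' ≤ q (i + M + 1) := q_anti h1
      have h6 := q_pos i'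
      have h7 : q i' * q i' ≤ q (i + M + 1) * q (i + M + 1) :=
        mul_le_mul h5 h5 h6.le (q_pos _).le
      linarith
    · have : X s = ∅ := by
        rw [Set.eq_empty_iff_forall_notMem]
        rintro y ⟨i2, B2, g1, g2, g3, g4, _⟩
        exact h ⟨i2, B2, g1, g2, g3, g4⟩
      rw [this, measure_empty]
      exact zero_le
  -- selection of the point
  have hnum := numeric M hM i l hi1 hil κ hκ (Sl.card : ℝ) (S'.card : ℝ)
    (by
      have h1 : Sl.card ≤ 2 * M := by omega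
      exact_mod_cast h1) (by positivity)
    (by
      have h1 : S'.card ≤ M := by omega
      exact_mod_cast h1) (by positivity)
  have hbadvol := volume_bad Sl l (2 * l) (z - c i + 2 * ρ) (c i - 4 * ρ) κ
    (by nlinarith) hκ0.le (by linarith)
  rw [show l + 2 * l = 3 * l by ring, ← hρ] at hbadvol
  rw [← hρ] at hnum
  obtain ⟨W, hW⟩ : ∃ W, W = c i - 4 * ρ := ⟨_, rfl⟩
  have hW0 : 0 ≤ W := by rw [hW]; nlinarith
  have hqM1 := q_pos (i + M + 1)
  rw [← hW] at hbadvol hnum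
  have hpoint : ∃ y, z - c i + 2 * ρ ≤ y ∧ y ≤ z - 2 * ρ ∧ y ∉ Bad Sl l (2 * l) ρ ∧
      ∀ s ∈ S', y ∉ X s := by
    by_contra hcon
    push Not at hcon
    have hsub : Icc (z - c i + 2 * ρ) (z - c i + 2 * ρ + (W)) ⊆
        (Bad Sl l (2 * l) ρ ∩ Icc (z - c i + 2 * ρ) (z - c i + 2 * ρ + (W))) ∪
          ⋃ s ∈ S', X s := by
      intro y hy
      by_cases hb : y ∈ Bad Sl l (2 * l) ρ
      · exact Or.inl ⟨hb, hy⟩
      · right
        obtain ⟨s, hs, hys⟩ := hcon y hy.1 (by linarith [hy.2]) hb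
        exact mem_iUnion₂.mpr ⟨s, hs, hys⟩
    have hvol : ENNReal.ofReal (W) ≤ ENNReal.ofReal (Sl.card * ((W + 2 * ρ
        + q l * q l / 15) * q l / 3
        + q l * q l / 15 + 8 / 3 * κ * (W + 2 * ρ + q l * q l / 15)
        + 2 * ρ * (2 * l : ℕ)) + S'.card * (q (i + M + 1) * q (i + M + 1) + 2 * ρ)) := by
      rw [ENNReal.ofReal_add (by positivity) (by positivity)]
      calc ENNReal.ofReal (W)
          = volume (Icc (z - c i + 2 * ρ) (z - c i + 2 * ρ + (W))) := by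
            rw [Real.volume_Icc, add_sub_cancel_left]
        _ ≤ _ := measure_mono hsub
        _ ≤ _ := measure_union_le _ _
        _ ≤ _ := by
          apply add_le_add hbadvol
          refine (measure_biUnion_finset_le _ _).trans ?_
          refine (Finset.sum_le_sum fun s _ => hX s).trans ?_
          rw [Finset.sum_const, nsmul_eq_mul, ← ENNReal.ofReal_natCast,
            ← ENNReal.ofReal_mul (by positivity)]
    rw [ENNReal.ofReal_le_ofReal_iff (by positivity)] at hvol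
    linarith
  obtain ⟨y, hy1, hy2, hybad, hyX⟩ := hpoint
  have hyy := hwin y hy1 hy2
  -- the new count
  let Sn : Finset ℕ := (Finset.range (4 ^ (3 * l))).filter (fun N => Meets (3 * l) y ρ N)
  have h3l : 3 * l = j0 + (H + 2 * l) := by omega
  have hanc0 : ∀ N, Meets (3 * l) y ρ N → Meets j0 y ρ (N / 4 ^ (H + 2 * l)) := by
    intro N hN
    rw [h3l] at hN
    exact hN.anc
  have hmaps : ∀ N ∈ Sn, N / 4 ^ (H + 2 * l) ∈ S' := by
    intro N hN
    simp only [Sn, Finset.mem_filter, Finset.mem_range] at hN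
    obtain ⟨hN0, hN⟩ := hN
    have hlt : N / 4 ^ (H + 2 * l) < 4 ^ j0 := by
      apply Nat.div_lt_of_lt_mul
      rw [← pow_add, show H + 2 * l + j0 = 3 * l by omega]
      exact hN0
    have h1 := hanc0 N hN
    have habs := abs_le.mp (show |y - y0| ≤ κ * q j0 - ρ by linarith)
    have h2 : N / 4 ^ (H + 2 * l) ∈ S := hmeet _ hlt
      ⟨by linarith [h1.1, habs.2], by linarith [h1.2, habs.1]⟩
    refine Finset.mem_erase.mpr ⟨?_, h2⟩
    intro heq
    -- level `i` ancestor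
    have h3 : 3 * l = i + (3 * l - i) := by omega
    have h4 : Meets i y ρ (N / 4 ^ (3 * l - i)) := by
      apply Meets.anc
      rw [← h3]
      exact hN
    have h5 : (N / 4 ^ (3 * l - i)) / 4 ^ (e + 1) = N1 := by
      rw [Nat.div_div_eq_div_mul, ← pow_add, show 3 * l - i + (e + 1) = H + 2 * l by omega]
      exact heq
    have hfin := no_branch j0 e N1 b hb1 (by rw [← hi]; linarith) ρ y hρ0
      (by rw [← hi]; linarith) (by rw [← hi, ← hz]; linarith) (by rw [← hi, ← hz]; linarith)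
      _ h5
    rw [← hi] at hfin
    exact hfin h4
  have hinj : Set.InjOn (fun N => N / 4 ^ (H + 2 * l)) (Sn : Set ℕ) := by
    have key : ∀ N N' : ℕ, N ∈ Sn → N' ∈ Sn → N < N' →
        N / 4 ^ (H + 2 * l) = N' / 4 ^ (H + 2 * l) → False := by
      intro N N' hN hN' hlt heq
      have hs := hmaps N hN
      simp only [Sn, Finset.mem_filter, Finset.mem_range] at hN hN'
      obtain ⟨hN0, hN⟩ := hN
      obtain ⟨hN0', hN'⟩ := hN'
      have h3 : 3 * l = l + 2 * l := by omega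
      have hm1 : Meets l y ρ (N / 4 ^ (2 * l)) := by
        apply Meets.anc; rw [← h3]; exact hN
      have hm2 : Meets l y ρ (N' / 4 ^ (2 * l)) := by
        apply Meets.anc; rw [← h3]; exact hN'
      have ha1 : (N / 4 ^ (2 * l)) / 4 ^ H = N / 4 ^ (H + 2 * l) := by
        rw [Nat.div_div_eq_div_mul, ← pow_add, show 2 * l + H = H + 2 * l by omega]
      have ha2 : (N' / 4 ^ (2 * l)) / 4 ^ H = N / 4 ^ (H + 2 * l) := by
        rw [Nat.div_div_eq_div_mul, ← pow_add, show 2 * l + H = H + 2 * l by omega, heq]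
      have hle : N / 4 ^ (2 * l) ≤ N' / 4 ^ (2 * l) := Nat.div_le_div_right hlt.le
      rcases hle.lt_or_eq with hc | hc
      · -- two different level `l` pieces
        have hJ := junction_in_X j0 H e b N1 (N / 4 ^ (H + 2 * l)) M u (by omega) hb1 hHe y ρ hρ0
          (by rw [← hl]; nlinarith) (by rw [← hl]; exact hq0)
          (by rw [← hi, ← hz]; linarith) (by rw [← hi, ← hz]; linarith)
          (fun t h1 h2 => hK _ hs t h1 h2) _ _ hc ha1 ha2 (by rw [← hl]; exact hm1)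
          (by rw [← hl]; exact hm2)
        apply hyX _ hs
        rw [← hi, ← hl] at hJ
        exact hJ
      · -- same level `l` piece
        apply hybad
        refine ⟨N, N', hlt, hc, ?_, by rw [← h3]; exact hN'.1, by rw [← h3]; exact hN.2⟩
        simp only [Sl, Finset.mem_filter, Finset.mem_range]
        refine ⟨?_, by rw [ha1]; exact hs, by linarith [hm1.1], by linarith [hm1.2]⟩
        apply Nat.div_lt_of_lt_mul
        rw [← pow_add, show 2 * l + l = 3 * l by omega]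
        exact hN0
    intro N hN N' hN' heq
    rcases lt_trichotomy N N' with h | h | h
    · exact (key N N' hN hN' h heq).elim
    · exact h
    · exact (key N' N hN' hN h heq.symm).elim
  have hcard : Sn.card ≤ m :=
    (Finset.card_le_card_of_injOn _ hmaps hinj).trans hS'
  obtain ⟨y', hy', hy'E⟩ := IH (3 * l) (by omega) y Sn hcard (by
    intro N hN hNm
    rw [← hρ] at hNm
    simp only [Sn, Finset.mem_filter, Finset.mem_range]
    exact ⟨hN, hNm⟩)
  refine ⟨y', ?_, hy'E⟩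
  rw [← hρ] at hy'
  calc |y' - y0| = |(y' - y) + (y - y0)| := by ring_nf
    _ ≤ |y' - y| + |y - y0| := abs_add_le _ _
    _ ≤ κ * q j0 := by linarith

theorem claim (E : Set ℝ) (hE : ∀ y ∈ E, ∀ j, ∃ N < 4 ^ j, f j N ≤ y ∧ y ≤ f j N + R j)
    (M : ℕ) (hM : 1 ≤ M) (κ : ℝ) (hκ : κ = 1 / (64 * M)) (m : ℕ) (hm : m ≤ M) :
    ∃ J : ℕ, ∀ j ≥ J, ∀ y : ℝ, ∀ S : Finset ℕ, S.card ≤ m →
      (∀ N < 4 ^ j, Meets j y (κ * q j) N → N ∈ S) → ∃ y', |y' - y| ≤ κ * q j ∧ y' ∉ E := by
  have hM' : (1 : ℝ) ≤ M := by exact_mod_cast hM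
  have hκ0 : 0 < κ := by rw [hκ]; positivity
  induction m with
  | zero =>
    refine ⟨0, fun j _ y S hS hmeet => ⟨y, ?_, fun hy => ?_⟩⟩
    · rw [sub_self, abs_zero]
      have := q_pos j
      positivity
    · obtain ⟨N, hN, h1, h2⟩ := hE y hy j
      have := q_pos j
      have hpos : 0 < κ * q j := by positivity
      have := hmeet N hN ⟨by linarith, by linarith⟩
      rw [Finset.card_eq_zero.mp (Nat.le_zero.mp hS)] at this
      simp at this
  | succ m ih =>
    obtain ⟨J, IH⟩ := ih (by omega)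
    refine ⟨max J (M + 4 + (M + 1) * (M + 1) + 2), fun j hj y S hS hmeet => ?_⟩
    exact claim_step E hE M hM κ hκ m hm J IH j (le_trans (le_max_left _ _) hj)
      (le_trans (le_max_right _ _) hj) y S hS hmeet

end Pool.Agent.Lib.MP_1e50ba_an
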