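import Pool.Agent.Lib.MP_1e50ba_an.Pieces

set_option autoImplicit false

namespace Pool.Agent.Lib.MP_1e50ba_an

open Set MeasureTheory

theorem card_bound (x g : ℝ) (hg : 0 ≤ g) :
    ((Finset.Icc ⌈x⌉₊ ⌊x + g⌋₊).card : ℝ) ≤ g + 1 := by
  rw [Nat.card_Icc]
  by_cases h : 0 ≤ x + g
  · have h1 := Nat.floor_le h
    have h2 := Nat.le_ceil x
    by_cases h3 : ⌈x⌉₊ ≤ ⌊x + g⌋₊ + 1
    · rw [Nat.cast_sub h3]
      push_cast
      linarith
    · rw [Nat.sub_eq_zero_of_le (by omega)]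
      push_cast
      linarith
  · have h1 : ⌊x + g⌋₊ = 0 := Nat.floor_of_nonpos (by linarith)
    rw [h1]
    have : (0 + 1 - ⌈x⌉₊ : ℕ) ≤ 1 := by omega
    have h2 : ((0 + 1 - ⌈x⌉₊ : ℕ) : ℝ) ≤ 1 := by exact_mod_cast this
    linarith

/-- points whose window meets two level `l+t` descendants of a level `l` piece with index in `S` -/
def Bad (S : Finset ℕ) (l t : ℕ) (ρ : ℝ) : Set ℝ :=
  {y | ∃ N N' : ℕ, N < N' ∧ N / 4 ^ t = N' / 4 ^ t ∧ N / 4 ^ t ∈ S ∧
    f (l + t) N' ≤ y + ρ ∧ y - ρ ≤ f (l + t) N + R (l + t)}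

theorem sum_bound (l t : ℕ) (γ ρ : ℝ) :
    ∑ u ∈ Finset.range t, (γ / q (l + u + 1) + 1) * (q (l + u + 1) * q (l + u + 1) + 2 * ρ) =
      γ * (q l - q (l + t)) / 3 + (q l * q l - q (l + t) * q (l + t)) / 15
        + 8 / 3 * ρ * γ * (1 / q (l + t) - 1 / q l) + 2 * ρ * t := by
  induction t with
  | zero => simp
  | succ t ih =>
    rw [Finset.sum_range_succ, ih, ← add_assoc, q_succ (l + t)]
    have h := (q_pos (l + t + 1)).ne'
    have h' := (q_pos l).ne'
    push_cast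
    field_simp
    ring

theorem sum_bound' (l t : ℕ) (γ κ : ℝ) (hγ : 0 ≤ γ) (hκ : 0 ≤ κ) :
    ∑ u ∈ Finset.range t, (γ / q (l + u + 1) + 1) *
      (q (l + u + 1) * q (l + u + 1) + 2 * (κ * q (l + t))) ≤
      γ * q l / 3 + q l * q l / 15 + 8 / 3 * κ * γ + 2 * (κ * q (l + t)) * t := by
  rw [sum_bound]
  have h := q_pos (l + t)
  have h' := q_pos l
  have e : 8 / 3 * (κ * q (l + t)) * γ * (1 / q (l + t) - 1 / q l) =
      8 / 3 * κ * γ - 8 / 3 * κ * γ * (q (l + t) / q l) := by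
    field_simp
  rw [e]
  have h1 : 0 ≤ 8 / 3 * κ * γ * (q (l + t) / q l) := by positivity
  have h2 : 0 ≤ q (l + t) * q (l + t) := by positivity
  have h3 : 0 ≤ γ * q (l + t) := by positivity
  nlinarith

theorem volume_bad (S : Finset ℕ) (l t : ℕ) (p w κ : ℝ) (hw : 0 ≤ w) (hκ : 0 ≤ κ)
    (hκ1 : κ < 1 / 4) :
    volume (Bad S l t (κ * q (l + t)) ∩ Icc p (p + w)) ≤
      ENNReal.ofReal (S.card * ((w + 2 * (κ * q (l + t)) + q l * q l / 15) * q l / 3
        + q l * q l / 15 + 8 / 3 * κ * (w + 2 * (κ * q (l + t)) + q l * q l / 15)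
        + 2 * (κ * q (l + t)) * t)) := by
  set ρ := κ * q (l + t) with hρ
  set γ := w + 2 * ρ + q l * q l / 15 with hγ
  have hq := q_pos (l + t)
  have hql := q_pos l
  have hρ0 : 0 ≤ ρ := by positivity
  have hγ0 : 0 ≤ γ := by positivity
  have hρ4 : 4 * ρ < q (l + t) := by rw [hρ]; nlinarith
  let F : ℕ → ℕ → Finset ℕ := fun A u =>
    Finset.Icc ⌈(p - ρ + dl l A) / q (l + u + 1) - 1⌉₊
      ⌊(p - ρ + dl l A) / q (l + u + 1) - 1 + γ / q (l + u + 1)⌋₊
  have hsub : Bad S l t ρ ∩ Icc p (p + w) ⊆ ⋃ A ∈ S, ⋃ u ∈ Finset.range t, ⋃ B ∈ F A u,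
      Icc (f (l + u + 1) (B + 1) - ρ)
        (f (l + u + 1) (B + 1) - ρ + (q (l + u + 1) * q (l + u + 1) + 2 * ρ)) := by
    rintro y ⟨⟨N, N', hlt, hanc, hS, h1, h2⟩, hy1, hy2⟩
    obtain ⟨u, hu, B, hB, hB1, hB2, hB3⟩ := lemmaZ l t N N' y ρ hρ4 hlt hanc h1 h2
    rw [mem_iUnion₂]
    refine ⟨N / 4 ^ t, hS, ?_⟩
    rw [mem_iUnion₂]
    refine ⟨u, Finset.mem_range.mpr hu, ?_⟩
    rw [mem_iUnion₂]
    have hw := junction_width_le (l + u) B hB1
    refine ⟨B, ?_, ⟨by linarith, by linarith⟩⟩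
    have hqu := q_pos (l + u + 1)
    -- bounds for the accumulated perturbation
    have hanc' : (B + 1) / 4 ^ (u + 1) = N / 4 ^ t := by
      rw [← hB, pow_succ, mul_comm, ← Nat.div_div_eq_div_mul, ← Nat.div_div_eq_div_mul, hB1]
    have d1 := dl_anc_le l (u + 1) (B + 1)
    have d2 := dl_le_anc l (u + 1) (B + 1)
    rw [hanc'] at d1 d2
    have hC := C_le l
    have hC' := C_nonneg (l + (u + 1))
    have hf : f (l + (u + 1)) (B + 1) = (B + 1 : ℝ) * q (l + (u + 1)) - dl (l + (u + 1)) (B + 1) := by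
      unfold f; push_cast; ring
    rw [← add_assoc] at hf d1 d2 hC'
    have low : p - ρ + dl l (N / 4 ^ t) ≤ (B + 1 : ℝ) * q (l + u + 1) := by
      have : p - ρ ≤ f (l + u + 1) B + R (l + u + 1) := by linarith
      have e1 : f (l + u + 1) B = (B : ℝ) * q (l + u + 1) - dl (l + u + 1) B := rfl
      have d3 := dl_anc_le l (u + 1) B
      rw [hB, ← add_assoc] at d3
      have := R_lt (l + u + 1)
      nlinarith
    have high : (B + 1 : ℝ) * q (l + u + 1) ≤ p - ρ + dl l (N / 4 ^ t) + γ := by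
      rw [hγ]
      linarith
    simp only [F, Finset.mem_Icc]
    constructor
    · apply Nat.ceil_le.mpr
      rw [sub_le_iff_le_add, div_le_iff₀ hqu]
      exact low
    · apply Nat.le_floor
      have : (B + 1 : ℝ) ≤ (p - ρ + dl l (N / 4 ^ t) + γ) / q (l + u + 1) := by
        rw [le_div_iff₀ hqu]; exact high
      rw [add_div] at this
      linarith
  refine (measure_mono hsub).trans ?_
  have step1 : ∀ A u, volume (⋃ B ∈ F A u, Icc (f (l + u + 1) (B + 1) - ρ)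
        (f (l + u + 1) (B + 1) - ρ + (q (l + u + 1) * q (l + u + 1) + 2 * ρ))) ≤
      ENNReal.ofReal ((γ / q (l + u + 1) + 1) * (q (l + u + 1) * q (l + u + 1) + 2 * ρ)) := by
    intro A u
    have hqu := q_pos (l + u + 1)
    refine (measure_biUnion_finset_le _ _).trans ?_
    simp only [Real.volume_Icc, add_sub_cancel_left, Finset.sum_const, nsmul_eq_mul]
    rw [← ENNReal.ofReal_natCast, ← ENNReal.ofReal_mul (by positivity)]
    apply ENNReal.ofReal_le_ofReal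
    apply mul_le_mul_of_nonneg_right _ (by positivity)
    exact card_bound _ _ (by positivity)
  have step2 : ∀ A, volume (⋃ u ∈ Finset.range t, ⋃ B ∈ F A u, Icc (f (l + u + 1) (B + 1) - ρ)
        (f (l + u + 1) (B + 1) - ρ + (q (l + u + 1) * q (l + u + 1) + 2 * ρ))) ≤
      ENNReal.ofReal (γ * q l / 3 + q l * q l / 15 + 8 / 3 * κ * γ + 2 * ρ * t) := by
    intro A
    refine (measure_biUnion_finset_le _ _).trans ?_
    refine (Finset.sum_le_sum fun u _ => step1 A u).trans ?_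
    rw [← ENNReal.ofReal_sum_of_nonneg]
    · exact ENNReal.ofReal_le_ofReal (sum_bound' l t γ κ hγ0 hκ)
    · intro u _
      have hqu := q_pos (l + u + 1)
      positivity
  refine (measure_biUnion_finset_le _ _).trans ?_
  refine (Finset.sum_le_sum fun A _ => step2 A).trans ?_
  rw [Finset.sum_const, nsmul_eq_mul, ← ENNReal.ofReal_natCast,
    ← ENNReal.ofReal_mul (by positivity)]

end Pool.Agent.Lib.MP_1e50ba_an
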