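import Mathlib

set_option autoImplicit false

namespace Pool.Agent.Lib.MP_1e50ba_an

open Set Finset

/-- scale -/
noncomputable def q (j : ℕ) : ℝ := (1 / 4) ^ j

/-- perturbation -/
noncomputable def c (k : ℕ) : ℝ := q k * q k / (1 + q k)

/-- tail of the perturbations -/
noncomputable def C (j : ℕ) : ℝ := ∑' k, c (j + 1 + k)

/-- length of the hull of a level `j` piece -/
noncomputable def R (j : ℕ) : ℝ := q j - C j

/-- accumulated perturbation -/
noncomputable def dl : ℕ → ℕ → ℝ
  | 0, _ => 0
  | j + 1, N => dl j (N / 4) + if N % 2 = 1 then c (j + 1) else 0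

/-- left endpoint of a piece -/
noncomputable def f (j N : ℕ) : ℝ := N * q j - dl j N

theorem q_pos (j : ℕ) : 0 < q j := by unfold q; positivity

theorem q_succ (j : ℕ) : q j = 4 * q (j + 1) := by
  unfold q; rw [pow_succ]; ring

theorem q_zero : q 0 = 1 := by simp [q]

theorem q_add (i j : ℕ) : q (i + j) = q i * q j := by
  unfold q; rw [pow_add]

theorem q_le_one (j : ℕ) : q j ≤ 1 := by
  unfold q; exact pow_le_one₀ (by norm_num) (by norm_num)

theorem q_anti {i j : ℕ} (h : i ≤ j) : q j ≤ q i := by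
  unfold q; exact pow_le_pow_of_le_one (by norm_num) (by norm_num) h

theorem q_le_quarter {j : ℕ} (h : 1 ≤ j) : q j ≤ 1 / 4 := by
  have := q_anti h
  rwa [show q 1 = 1 / 4 by simp [q]] at this

theorem q_mul_pow (j : ℕ) : q j * 4 ^ j = 1 := by
  unfold q; rw [← mul_pow]; norm_num

theorem c_pos (k : ℕ) : 0 < c k := by
  have := q_pos k
  unfold c; positivity

theorem c_le_sq (k : ℕ) : c k ≤ q k * q k := by
  have := q_pos k
  unfold c
  rw [div_le_iff₀ (by linarith)]
  nlinarith [mul_pos this this, mul_pos (mul_pos this this) this]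

theorem c_le_half (k : ℕ) : c k ≤ q k / 2 := by
  have h := q_pos k
  have h1 := q_le_one k
  unfold c
  rw [div_le_div_iff₀ (by linarith) (by norm_num)]
  nlinarith

theorem c_ge {k : ℕ} (hk : 1 ≤ k) : 4 / 5 * (q k * q k) ≤ c k := by
  have h := q_pos k
  have h1 := q_le_quarter hk
  unfold c
  rw [le_div_iff₀ (by linarith)]
  nlinarith [mul_pos h h]

theorem summable_c (j : ℕ) : Summable fun k => c (j + 1 + k) := by
  have h : Summable fun k : ℕ => ((1 / 4 : ℝ)) ^ k := by
    exact summable_geometric_of_lt_one (by norm_num) (by norm_num)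
  refine Summable.of_nonneg_of_le (fun k => (c_pos _).le) (fun k => ?_) h
  calc c (j + 1 + k) ≤ q (j + 1 + k) / 2 := c_le_half _
    _ ≤ q (j + 1 + k) := by linarith [q_pos (j + 1 + k)]
    _ ≤ q k := q_anti (by omega)
    _ = (1 / 4) ^ k := rfl

theorem C_succ (j : ℕ) : C j = c (j + 1) + C (j + 1) := by
  unfold C
  rw [(summable_c j).tsum_eq_zero_add]
  congr 1
  apply tsum_congr
  intro k
  congr 1
  omega

theorem C_nonneg (j : ℕ) : 0 ≤ C j := tsum_nonneg fun _ => (c_pos _).le

theorem C_pos (j : ℕ) : 0 < C j := by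
  rw [C_succ]
  linarith [c_pos (j + 1), C_nonneg (j + 1)]

theorem C_le (j : ℕ) : C j ≤ q j * q j / 15 := by
  have h : HasSum (fun k : ℕ => q j * q j / 16 * (1 / 16) ^ k) (q j * q j / 16 * (1 - 1 / 16)⁻¹) :=
    (hasSum_geometric_of_lt_one (by norm_num) (by norm_num)).mul_left _
  have h2 : C j ≤ ∑' k : ℕ, q j * q j / 16 * (1 / 16) ^ k := by
    apply Summable.tsum_le_tsum _ (summable_c j) h.summable
    intro k
    refine (c_le_sq _).trans (le_of_eq ?_)
    rw [show j + 1 + k = j + (1 + k) by omega, q_add, q_add 1 k]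
    unfold q
    rw [show (1 / 16 : ℝ) = 1 / 4 * (1 / 4) by norm_num, mul_pow]
    ring
  rw [h.tsum_eq] at h2
  refine h2.trans (le_of_eq ?_)
  norm_num
  ring

theorem C_anti {i j : ℕ} (h : i ≤ j) : C j ≤ C i := by
  induction j, h using Nat.le_induction with
  | base => exact le_rfl
  | succ k _ ih =>
    have := C_succ k
    linarith [c_pos (k + 1)]

theorem R_succ (j : ℕ) : R j = 3 * q (j + 1) - c (j + 1) + R (j + 1) := by
  unfold R
  rw [C_succ, q_succ j]
  ring

theorem R_pos (j : ℕ) : 0 < R j := by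
  have h := q_pos j
  have h1 := q_le_one j
  have h2 := C_le j
  unfold R
  nlinarith

theorem R_lt (j : ℕ) : R j < q j := by
  unfold R
  linarith [C_pos j]

theorem dl_zero (N : ℕ) : dl 0 N = 0 := rfl

theorem dl_succ (j N : ℕ) :
    dl (j + 1) N = dl j (N / 4) + if N % 2 = 1 then c (j + 1) else 0 := rfl

theorem f_succ (j N : ℕ) : f (j + 1) N =
    f j (N / 4) + (N % 4 : ℕ) * q (j + 1) - if N % 2 = 1 then c (j + 1) else 0 := by
  have h : (N : ℝ) = 4 * (N / 4 : ℕ) + (N % 4 : ℕ) := by
    have := Nat.div_add_mod N 4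
    exact_mod_cast this.symm
  unfold f
  rw [dl_succ, q_succ j, h]
  ring_nf

theorem f_parent_le (j N : ℕ) : f j (N / 4) ≤ f (j + 1) N := by
  rw [f_succ]
  have h1 := c_le_half (j + 1)
  have h2 := q_pos (j + 1)
  have h3 : N % 4 = 0 ∨ N % 4 = 1 ∨ N % 4 = 2 ∨ N % 4 = 3 := by omega
  rcases h3 with h | h | h | h
  · rw [if_neg (by omega), h]; simp
  · rw [if_pos (by omega), h]; push_cast; linarith
  · rw [if_neg (by omega), h]; push_cast; linarith
  · rw [if_pos (by omega), h]; push_cast; linarith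

theorem f_add_R_le_parent (j N : ℕ) : f (j + 1) N + R (j + 1) ≤ f j (N / 4) + R j := by
  rw [f_succ, R_succ j]
  have h1 := c_le_half (j + 1)
  have h2 := q_pos (j + 1)
  have h4 := c_pos (j + 1)
  have h3 : N % 4 = 0 ∨ N % 4 = 1 ∨ N % 4 = 2 ∨ N % 4 = 3 := by omega
  rcases h3 with h | h | h | h
  · rw [if_neg (by omega), h]; push_cast; linarith
  · rw [if_pos (by omega), h]; push_cast; linarith
  · rw [if_neg (by omega), h]; push_cast; linarith
  · rw [if_pos (by omega), h]; push_cast; linarith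

theorem f_anc_le (j t N : ℕ) : f j (N / 4 ^ t) ≤ f (j + t) N := by
  induction t generalizing N with
  | zero => simp
  | succ t ih =>
    rw [← add_assoc]
    refine le_trans ?_ (f_parent_le (j + t) N)
    have := ih (N / 4)
    rwa [Nat.div_div_eq_div_mul, mul_comm, ← pow_succ] at this

theorem f_add_R_le_anc (j t N : ℕ) : f (j + t) N + R (j + t) ≤ f j (N / 4 ^ t) + R j := by
  induction t generalizing N with
  | zero => simp
  | succ t ih =>
    rw [← add_assoc]
    refine (f_add_R_le_parent (j + t) N).trans ?_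
    have := ih (N / 4)
    rwa [Nat.div_div_eq_div_mul, mul_comm, ← pow_succ] at this

theorem dl_anc_le (j t N : ℕ) : dl j (N / 4 ^ t) ≤ dl (j + t) N := by
  induction t generalizing N with
  | zero => simp
  | succ t ih =>
    rw [← add_assoc, dl_succ]
    have := ih (N / 4)
    rw [Nat.div_div_eq_div_mul, mul_comm, ← pow_succ] at this
    have h := c_pos (j + t + 1)
    split_ifs <;> linarith

theorem dl_le_anc (j t N : ℕ) : dl (j + t) N ≤ dl j (N / 4 ^ t) + C j - C (j + t) := by
  induction t generalizing N with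
  | zero => simp
  | succ t ih =>
    rw [← add_assoc, dl_succ]
    have := ih (N / 4)
    rw [Nat.div_div_eq_div_mul, mul_comm, ← pow_succ] at this
    have h := c_pos (j + t + 1)
    have h2 := C_succ (j + t)
    split_ifs <;> linarith

/-- Lemma Z: two distinct level `l+t` descendants of a level `l` piece meeting a short window
produce a junction of two adjacent siblings of some intermediate level. -/
theorem lemmaZ (l t N N' : ℕ) (y ρ : ℝ) (hρ : 4 * ρ < q (l + t)) (hlt : N < N')
    (hanc : N / 4 ^ t = N' / 4 ^ t) (h1 : f (l + t) N' ≤ y + ρ)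
    (h2 : y - ρ ≤ f (l + t) N + R (l + t)) :
    ∃ u < t, ∃ B : ℕ, B / 4 ^ (u + 1) = N / 4 ^ t ∧ B / 4 = (B + 1) / 4 ∧
      f (l + u + 1) (B + 1) ≤ y + ρ ∧ y - ρ ≤ f (l + u + 1) B + R (l + u + 1) := by
  induction t generalizing N N' with
  | zero => simp at hanc; omega
  | succ t ih =>
    rw [← add_assoc] at h1 h2 hρ
    by_cases hp : N / 4 = N' / 4
    · -- siblings
      have hN' : N' = N + 1 := by
        by_contra hne
        have e1 := f_succ (l + t) N
        have e2 := f_succ (l + t) N'
        rw [← hp] at e2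
        have hm := c_le_half (l + t + 1)
        have hm0 := c_pos (l + t + 1)
        have hq := q_pos (l + t + 1)
        have hR := R_lt (l + t + 1)
        have hmod : N % 4 + 2 ≤ N' % 4 := by omega
        have hmod' : ((N % 4 : ℕ) : ℝ) + 2 ≤ ((N' % 4 : ℕ) : ℝ) := by exact_mod_cast hmod
        have h3 : f (l + t + 1) N' - f (l + t + 1) N ≥ 2 * q (l + t + 1) - c (l + t + 1) := by
          rw [e1, e2]
          have h4 : (((N' % 4 : ℕ) : ℝ) - ((N % 4 : ℕ) : ℝ)) * q (l + t + 1) ≥ 2 * q (l + t + 1) := by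
            apply mul_le_mul_of_nonneg_right _ hq.le
            linarith
          split_ifs <;> linarith
        linarith
      subst hN'
      exact ⟨t, Nat.lt_succ_self t, N, rfl, hp, by linarith, by linarith⟩
    · have hlt' : N / 4 < N' / 4 := by omega
      have ha : (N / 4) / 4 ^ t = (N' / 4) / 4 ^ t := by
        rw [Nat.div_div_eq_div_mul, Nat.div_div_eq_div_mul, mul_comm, ← pow_succ]
        exact hanc
      have hq := q_succ (l + t)
      have hq' := q_pos (l + t + 1)
      obtain ⟨u, hu, B, hB, hB1, hB2, hB3⟩ := ih (N / 4) (N' / 4) (by linarith) hlt' ha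
        ((f_parent_le _ _).trans h1) (h2.trans (f_add_R_le_parent _ _))
      refine ⟨u, hu.trans (Nat.lt_succ_self t), B, ?_, hB1, hB2, hB3⟩
      rw [hB, Nat.div_div_eq_div_mul, mul_comm, ← pow_succ]

/-- width of a junction -/
theorem junction_width (j B : ℕ) (hB : B / 4 = (B + 1) / 4) :
    (B % 2 = 0 → f (j + 1) B + R (j + 1) = f (j + 1) (B + 1) + c (j + 1) - C (j + 1)) ∧
    (B % 2 = 1 → f (j + 1) B + R (j + 1) = f (j + 1) (B + 1) - c (j + 1) - C (j + 1)) := by
  have e1 := f_succ j B
  have e2 := f_succ j (B + 1)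
  rw [← hB] at e2
  have hm : (B + 1) % 4 = B % 4 + 1 := by omega
  rw [hm] at e2
  push_cast at e2
  constructor
  · intro h
    rw [if_neg (by omega)] at e1
    rw [if_pos (by omega)] at e2
    rw [e1, e2]
    unfold R
    ring
  · intro h
    rw [if_pos (by omega)] at e1
    rw [if_neg (by omega)] at e2
    rw [e1, e2]
    unfold R
    ring

theorem junction_width_le (j B : ℕ) (hB : B / 4 = (B + 1) / 4) :
    f (j + 1) B + R (j + 1) ≤ f (j + 1) (B + 1) + q (j + 1) * q (j + 1) := by
  have h := junction_width j B hB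
  have h1 := c_le_sq (j + 1)
  have h2 := C_nonneg (j + 1)
  have h3 := c_pos (j + 1)
  rcases Nat.mod_two_eq_zero_or_one B with h0 | h0
  · rw [h.1 h0]; linarith
  · rw [h.2 h0]; linarith

end Pool.Agent.Lib.MP_1e50ba_an
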