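import Pool.Agent.Lib.MP_1e50ba_an.Interior
import Pool.Agent.Lib.MP_1e50ba_an.Brouwer

set_option autoImplicit false
set_option maxHeartbeats 4000000

namespace Pool.Agent.Lib.MP_1e50ba_an

open Set Filter Topology

theorem q_eq (k : ℕ) : q k = 1 / 2 ^ (2 * k) := by
  unfold q; rw [one_div_pow, pow_mul]; norm_num

/-- The series with digits. `a n` says whether the term `n` is taken; term `0` is never taken. -/
noncomputable def term (x : ℕ → ℝ) (a : ℕ → Bool) (n : ℕ) : ℝ :=
  if n = 0 then 0 else if a n then x n else 0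

noncomputable def F (x : ℕ → ℝ) (a : ℕ → Bool) : ℝ := ∑' n, term x a n

/-- index of the level `j` piece -/
def ind (a : ℕ → Bool) : ℕ → ℕ
  | 0 => 0
  | j + 1 => 4 * ind a j + (2 * (a (2 * j + 1)).toNat + (a (2 * j + 2)).toNat)

theorem ind_lt (a : ℕ → Bool) (j : ℕ) : ind a j < 4 ^ j := by
  induction j with
  | zero => simp [ind]
  | succ j ih =>
    rw [ind, pow_succ]
    have h1 := Bool.toNat_le (a (2 * j + 1))
    have h2 := Bool.toNat_le (a (2 * j + 2))
    omega

variable (x : ℕ → ℝ) (h1 : ∀ n : ℕ, 1 ≤ n → x (2 * n - 1) = 1 / 2 ^ (2 * n - 1))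
  (h2 : ∀ n : ℕ, 1 ≤ n → x (2 * n) = 1 / (2 ^ (2 * n) + 1))

include h1 h2 in
theorem x_pos (n : ℕ) (hn : n ≠ 0) : 0 < x n := by
  rcases Nat.even_or_odd' n with ⟨k, hk | hk⟩
  · rw [hk, h2 k (by omega)]; positivity
  · have := h1 (k + 1) (by omega)
    rw [show 2 * (k + 1) - 1 = n by omega] at this
    rw [this]; positivity

include h1 h2 in
theorem x_le (n : ℕ) (hn : n ≠ 0) : x n ≤ (1 / 2) ^ n := by
  rcases Nat.even_or_odd' n with ⟨k, hk | hk⟩
  · rw [hk, h2 k (by omega), one_div_pow]
    apply one_div_le_one_div_of_le (by positivity)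
    linarith
  · have := h1 (k + 1) (by omega)
    rw [show 2 * (k + 1) - 1 = n by omega] at this
    rw [this, one_div_pow]

include h1 h2 in
theorem term_nonneg (a : ℕ → Bool) (n : ℕ) : 0 ≤ term x a n := by
  unfold term
  split_ifs with h h'
  · exact le_rfl
  · exact (x_pos x h1 h2 n h).le
  · exact le_rfl

include h1 h2 in
theorem term_le (a : ℕ → Bool) (n : ℕ) : term x a n ≤ (1 / 2) ^ n := by
  unfold term
  split_ifs with h h'
  · positivity
  · exact x_le x h1 h2 n h
  · positivity

theorem summable_half : Summable fun n : ℕ => ((1 / 2 : ℝ)) ^ n :=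
  summable_geometric_of_lt_one (by norm_num) (by norm_num)

include h1 h2 in
theorem summable_term (a : ℕ → Bool) : Summable (term x a) :=
  Summable.of_nonneg_of_le (term_nonneg x h1 h2 a) (term_le x h1 h2 a) summable_half

include h1 h2 in
theorem partial_sum (a : ℕ → Bool) (j : ℕ) :
    ∑ n ∈ Finset.range (2 * j + 1), term x a n = f j (ind a j) := by
  induction j with
  | zero => simp [term, f, ind, dl]
  | succ j ih =>
    rw [show 2 * (j + 1) + 1 = 2 * j + 1 + 1 + 1 by ring, Finset.sum_range_succ,
      Finset.sum_range_succ, ih, f_succ, ind]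
    have hd1 := Bool.toNat_le (a (2 * j + 1))
    have hd2 := Bool.toNat_le (a (2 * j + 2))
    have hdiv : (4 * ind a j + (2 * (a (2 * j + 1)).toNat + (a (2 * j + 2)).toNat)) / 4 =
      ind a j := by omega
    have hmod : (4 * ind a j + (2 * (a (2 * j + 1)).toNat + (a (2 * j + 2)).toNat)) % 4 =
      2 * (a (2 * j + 1)).toNat + (a (2 * j + 2)).toNat := by omega
    have hmod2 : (4 * ind a j + (2 * (a (2 * j + 1)).toNat + (a (2 * j + 2)).toNat)) % 2 =
      (a (2 * j + 2)).toNat := by omega
    rw [hdiv, hmod, hmod2]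
    have hx1 : x (2 * j + 1) = 2 * q (j + 1) := by
      have := h1 (j + 1) (by omega)
      rw [show 2 * (j + 1) - 1 = 2 * j + 1 by omega] at this
      rw [this, q_eq, show 2 * (j + 1) = 2 * j + 1 + 1 by ring, pow_succ _ (2 * j + 1)]
      field_simp
    have hx2 : x (2 * j + 2) = q (j + 1) - c (j + 1) := by
      have := h2 (j + 1) (by omega)
      rw [show 2 * (j + 1) = 2 * j + 2 by ring] at this
      have hq := q_pos (j + 1)
      rw [this]
      unfold c
      have e : q (j + 1) = 1 / 2 ^ (2 * j + 2) := q_eq (j + 1)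
      rw [e]
      field_simp
      ring
    have t1 : term x a (2 * j + 1) = ((a (2 * j + 1)).toNat : ℝ) * (2 * q (j + 1)) := by
      unfold term
      rw [if_neg (by omega), hx1]
      cases a (2 * j + 1) <;> simp
    have t2 : term x a (2 * j + 1 + 1) = ((a (2 * j + 2)).toNat : ℝ) * (q (j + 1) - c (j + 1)) := by
      unfold term
      rw [if_neg (by omega), hx2]
      cases a (2 * j + 2) <;> simp
    rw [t1, t2]
    push_cast
    cases a (2 * j + 2)
    · simp; ring
    · simp; ring

include h1 h2 in
theorem F_mem_piece (a : ℕ → Bool) (j : ℕ) :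
    f j (ind a j) ≤ F x a ∧ F x a ≤ f j (ind a j) + R j := by
  have hdiv : ∀ k, ind a (k + 1) / 4 = ind a k := by
    intro k
    have hd1 := Bool.toNat_le (a (2 * k + 1))
    have hd2 := Bool.toNat_le (a (2 * k + 2))
    rw [ind]; omega
  have hlim : Tendsto (fun k => f k (ind a k)) atTop (𝓝 (F x a)) := by
    have h := (summable_term x h1 h2 a).hasSum.tendsto_sum_nat
    have h3 : Tendsto (fun k : ℕ => 2 * k + 1) atTop atTop :=
      tendsto_atTop_atTop.mpr fun b => ⟨b, fun k hk => by omega⟩
    have h4 := h.comp h3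
    refine h4.congr fun k => ?_
    exact partial_sum x h1 h2 a k
  have hmono : Monotone fun k => f k (ind a k) := by
    apply monotone_nat_of_le_succ
    intro k
    have := f_parent_le k (ind a (k + 1))
    rwa [hdiv] at this
  have hanti : Antitone fun k => f k (ind a k) + R k := by
    apply antitone_nat_of_succ_le
    intro k
    have := f_add_R_le_parent k (ind a (k + 1))
    rwa [hdiv] at this
  have hq : Tendsto q atTop (𝓝 0) := tendsto_pow_atTop_nhds_zero_of_lt_one (by norm_num) (by norm_num)
  have hR : Tendsto R atTop (𝓝 0) :=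
    tendsto_of_tendsto_of_tendsto_of_le_of_le tendsto_const_nhds hq (fun k => (R_pos k).le)
      (fun k => (R_lt k).le)
  constructor
  · exact hmono.ge_of_tendsto hlim j
  · have := hlim.add hR
    rw [add_zero] at this
    exact hanti.le_of_tendsto this j

include h1 h2 in
theorem continuous_F : Continuous (F x) := by
  unfold F
  apply continuous_tsum _ summable_half
  · intro n a
    rw [Real.norm_of_nonneg (term_nonneg x h1 h2 a n)]
    exact term_le x h1 h2 a n
  · intro n
    unfold term
    exact (continuous_of_discreteTopology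
      (f := fun b : Bool => if n = 0 then 0 else if b then x n else 0)).comp (continuous_apply n)

include h1 h2 in
theorem F_flip (a : ℕ → Bool) (n : ℕ) (hn : n ≠ 0) :
    F x (Function.update a n (!a n)) ≠ F x a ∧
      |F x (Function.update a n (!a n)) - F x a| ≤ (1 / 2) ^ n := by
  have hsub : F x (Function.update a n (!a n)) - F x a =
      term x (Function.update a n (!a n)) n - term x a n := by
    unfold F
    rw [← Summable.tsum_sub (summable_term x h1 h2 _) (summable_term x h1 h2 _)]
    rw [tsum_eq_single n]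
    intro m hm
    unfold term
    rw [Function.update_of_ne hm]
    simp
  have hx := x_pos x h1 h2 n hn
  have hxl := x_le x h1 h2 n hn
  have hval : F x (Function.update a n (!a n)) - F x a = x n ∨
      F x (Function.update a n (!a n)) - F x a = - x n := by
    rw [hsub]
    unfold term
    rw [if_neg hn, if_neg hn, Function.update_self]
    cases a n <;> simp
  constructor
  · intro h
    rw [h, sub_self] at hval
    rcases hval with h | h <;> linarith
  · rcases hval with h | h
    · rw [h, abs_of_pos hx]; exact hxl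
    · rw [h, abs_neg, abs_of_pos hx]; exact hxl

include h1 h2 in
theorem E_homeo : Nonempty (Set.range (F x) ≃ₜ (ℕ → Bool)) := by
  have hcomp : IsCompact (Set.range (F x)) := isCompact_range (continuous_F x h1 h2)
  have hclosed : IsClosed (Set.range (F x)) := hcomp.isClosed
  have : CompactSpace (Set.range (F x)) := isCompact_iff_compactSpace.mp hcomp
  have : Nonempty (Set.range (F x)) := ⟨⟨F x (fun _ => false), ⟨_, rfl⟩⟩⟩
  have hpieces : ∀ y ∈ Set.range (F x), ∀ j, ∃ N < 4 ^ j, f j N ≤ y ∧ y ≤ f j N + R j := by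
    rintro y ⟨a, rfl⟩ j
    exact ⟨ind a j, ind_lt a j, F_mem_piece x h1 h2 a j⟩
  let r : ℕ → ℝ := fun n => (((Denumerable.eqv ℚ).symm n : ℚ) : ℝ)
  let U : ℕ → Set (Set.range (F x)) := fun n => {p | (p : ℝ) < r n ∧ r n ∉ Set.range (F x)}
  have hU : ∀ n, IsClopen (U n) := by
    intro n
    by_cases hr : r n ∈ Set.range (F x)
    · have : U n = ∅ := by
        ext p
        constructor
        · intro hp; exact (hp.2 hr).elim
        · intro hp; exact hp.elim
      rw [this]; exact isClopen_empty
    · constructor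
      · have : U n = {p : Set.range (F x) | (p : ℝ) ≤ r n} := by
          ext p
          constructor
          · intro hp; exact hp.1.le
          · intro hp
            refine ⟨lt_of_le_of_ne hp ?_, hr⟩
            intro he
            exact hr (he ▸ p.2)
        rw [this]
        exact isClosed_le continuous_subtype_val continuous_const
      · have : U n = {p : Set.range (F x) | (p : ℝ) < r n} := by
          ext p
          constructor
          · intro hp; exact hp.1
          · intro hp; exact ⟨hp, hr⟩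
        rw [this]
        exact isOpen_lt continuous_subtype_val continuous_const
  apply homeo_cantor U hU
  · -- separation
    have key : ∀ p p' : Set.range (F x), (p : ℝ) < p' → ∃ n, p ∈ U n ∧ p' ∉ U n := by
      intro p p' hlt
      obtain ⟨z, hz1, hz2, hzE⟩ := empty_interior _ hpieces _ _ hlt
      have hopen : IsOpen ((Set.range (F x))ᶜ ∩ Ioo (p : ℝ) p') :=
        hclosed.isOpen_compl.inter isOpen_Ioo
      obtain ⟨s, hs⟩ := Rat.isDenseEmbedding_coe_real.dense.exists_mem_open hopen
        ⟨z, hzE, hz1, hz2⟩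
      have hr : r (Denumerable.eqv ℚ s) = (s : ℝ) := by simp [r]
      refine ⟨Denumerable.eqv ℚ s, ?_, ?_⟩
      · refine ⟨?_, ?_⟩
        · rw [hr]; exact hs.2.1
        · rw [hr]; exact hs.1
      · intro h
        have := h.1
        rw [hr] at this
        exact lt_asymm this hs.2.2
    intro p p' hne
    have hne' : (p : ℝ) ≠ p' := fun h => hne (Subtype.ext h)
    rcases lt_or_gt_of_ne hne' with h | h
    · obtain ⟨n, hn1, hn2⟩ := key p p' h
      exact ⟨n, fun hh => hn2 (hh.mp hn1)⟩
    · obtain ⟨n, hn1, hn2⟩ := key p' p h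
      exact ⟨n, fun hh => hn2 (hh.mpr hn1)⟩
  · -- no isolated points
    intro V hV hne
    obtain ⟨p, hp⟩ := hne
    obtain ⟨a, ha⟩ := p.2
    obtain ⟨ε, hε, hball⟩ := Metric.isOpen_iff.mp hV p hp
    obtain ⟨n, hn⟩ := exists_pow_lt_of_lt_one hε (show (1 / 2 : ℝ) < 1 by norm_num)
    have hn' : ((1 : ℝ) / 2) ^ (n + 1) < ε :=
      lt_of_le_of_lt (pow_le_pow_of_le_one (by norm_num) (by norm_num) (by omega)) hn
    obtain ⟨g1, g2⟩ := F_flip x h1 h2 a (n + 1) (by omega)
    refine ⟨p, hp, ⟨F x (Function.update a (n + 1) (!a (n + 1))), ⟨_, rfl⟩⟩, hball ?_, ?_⟩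
    · rw [Metric.mem_ball, Subtype.dist_eq, Real.dist_eq, ← ha]
      exact lt_of_le_of_lt g2 hn'
    · intro h
      apply g1
      have := congrArg Subtype.val h
      rw [← ha] at this
      exact this.symm

open Classical in
theorem E_eq (x : ℕ → ℝ) :
    {y : ℝ | ∃ A : Set ℕ, 0 ∉ A ∧ y = ∑' n : A, x n} = Set.range (F x) := by
  ext y
  constructor
  · rintro ⟨A, hA, rfl⟩
    refine ⟨fun n => decide (n ∈ A), ?_⟩
    unfold F
    rw [tsum_subtype A x]
    apply tsum_congr
    intro n
    unfold term
    by_cases hn : n = 0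
    · rw [if_pos hn, hn, Set.indicator_of_notMem hA]
    · rw [if_neg hn]
      by_cases h : n ∈ A
      · rw [Set.indicator_of_mem h, if_pos (by simpa using h)]
      · rw [Set.indicator_of_notMem h, if_neg (by simpa using h)]
  · rintro ⟨a, rfl⟩
    refine ⟨{n | n ≠ 0 ∧ a n = true}, by simp, ?_⟩
    unfold F
    rw [tsum_subtype {n | n ≠ 0 ∧ a n = true} x]
    apply tsum_congr
    intro n
    unfold term
    by_cases hn : n = 0
    · rw [if_pos hn, Set.indicator_of_notMem (by simp [hn])]
    · rw [if_neg hn]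
      by_cases h : a n = true
      · rw [Set.indicator_of_mem (by exact ⟨hn, h⟩), if_pos h]
      · rw [Set.indicator_of_notMem (by simp [h]), if_neg h]

theorem main (x : ℕ → ℝ) (h1 : ∀ n : ℕ, 1 ≤ n → x (2 * n - 1) = 1 / 2 ^ (2 * n - 1))
    (h2 : ∀ n : ℕ, 1 ≤ n → x (2 * n) = 1 / (2 ^ (2 * n) + 1)) :
    Nonempty ({y : ℝ | ∃ A : Set ℕ, 0 ∉ A ∧ y = ∑' n : A, x n} ≃ₜ cantorSet) := by
  rw [E_eq x]
  obtain ⟨e⟩ := E_homeo x h1 h2
  exact ⟨e.trans cantorSetHomeomorphNatToBool.symm⟩

end Pool.Agent.Lib.MP_1e50ba_an
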