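import Pool.Agent.Lib.MP_1e50ba_an.Measure
import Pool.Agent.Lib.MP_1e50ba_an.Arith

set_option autoImplicit false

namespace Pool.Agent.Lib.MP_1e50ba_an

open Set MeasureTheory

/-- the hull of the level `j` piece `N` meets the window `[y-ρ,y+ρ]` -/
def Meets (j : ℕ) (y ρ : ℝ) (N : ℕ) : Prop := f j N ≤ y + ρ ∧ y - ρ ≤ f j N + R j

theorem Meets.anc {j t N : ℕ} {y ρ : ℝ} (h : Meets (j + t) y ρ N) : Meets j y ρ (N / 4 ^ t) :=
  ⟨(f_anc_le j t N).trans h.1, h.2.trans (f_add_R_le_anc j t N)⟩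

set_option maxHeartbeats 4000000

/-- the main numerical inequality -/
theorem numeric (M : ℕ) (hM : 1 ≤ M) (i l : ℕ) (hi : 1 ≤ i) (hl : i + M + 1 ≤ l)
    (κ : ℝ) (hκ : κ = 1 / (64 * M)) (a b : ℝ) (ha : a ≤ 2 * M) (ha0 : 0 ≤ a) (hb : b ≤ M)
    (hb0 : 0 ≤ b) :
    a * ((c i - 4 * (κ * q (3 * l)) + 2 * (κ * q (3 * l)) + q l * q l / 15) * q l / 3
        + q l * q l / 15 + 8 / 3 * κ * (c i - 4 * (κ * q (3 * l)) + 2 * (κ * q (3 * l))
          + q l * q l / 15)
        + 2 * (κ * q (3 * l)) * (2 * l : ℕ)) +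
      b * (q (i + M + 1) * q (i + M + 1) + 2 * (κ * q (3 * l))) < c i - 4 * (κ * q (3 * l)) := by
  have hM' : (1 : ℝ) ≤ M := by exact_mod_cast hM
  have hκ0 : 0 < κ := by rw [hκ]; positivity
  have hκM : κ * M = 1 / 64 := by rw [hκ]; field_simp
  have hκ1 : κ ≤ 1 / 64 := by nlinarith
  have e3 : q (3 * l) = q l * q l * q l := by
    rw [show 3 * l = l + l + l by omega, q_add, q_add]
  have hQ := q_pos i
  have hQ1 := q_le_quarter hi
  have hql := q_pos l
  have hMq := n_mul_q M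
  have e1 : q (i + M + 1) = q i * q M / 4 := by
    have := q_succ (i + M)
    rw [q_add] at this
    linarith
  have hlq : q l ≤ q i * q M / 4 := by
    rw [← e1]; exact q_anti hl
  have hqM := q_pos M
  have hMql : M * q l ≤ q i / 16 := by
    have : M * q l ≤ M * (q i * q M / 4) := by
      apply mul_le_mul_of_nonneg_left hlq (by positivity)
    nlinarith
  have hql2 : q l ≤ q i / 16 := by nlinarith
  have hlql := n_mul_q l
  have c1 := c_ge hi
  have c2 := c_le_sq i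
  have c0 := c_pos i
  rw [e3]
  set Q := q i
  set x := q l
  set ρ := κ * (x * x * x) with hρ
  have hx1 : x ≤ 1 / 64 := by linarith
  have hρ0 : 0 ≤ ρ := by positivity
  have hxx : x * x ≤ Q * Q / 256 := by nlinarith
  have hMxx : M * (x * x) ≤ Q * Q / 256 := by
    have : M * x * x ≤ Q / 16 * (Q / 16) := by
      apply mul_le_mul hMql hql2 hql.le (by positivity)
    linarith
  have hρM : M * ρ ≤ x * x / 4096 := by
    have : M * ρ = 1 / 64 * (x * x * x) := by rw [hρ, ← hκM]; ring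
    rw [this]
    nlinarith [mul_pos hql hql]
  have hρx : ρ ≤ x * x / 4096 := by nlinarith
  -- gamma
  set γ := c i - 4 * ρ + 2 * ρ + x * x / 15 with hγ
  have hγ1 : γ ≤ 1001 / 1000 * (Q * Q) := by
    rw [hγ]; nlinarith
  have hγ0 : 0 ≤ γ := by
    rw [hγ]; nlinarith [mul_pos hQ hQ]
  -- terms
  have T1 : a * (γ * x / 3) ≤ 5 / 100 * (Q * Q) := by
    have h1 : a * (γ * x / 3) ≤ 2 * M * (γ * x / 3) :=
      mul_le_mul_of_nonneg_right ha (by positivity)
    have h2 : 2 * M * (γ * x / 3) = 2 / 3 * γ * (M * x) := by ring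
    have h3 : 2 / 3 * γ * (M * x) ≤ 2 / 3 * γ * (Q / 16) :=
      mul_le_mul_of_nonneg_left hMql (by positivity)
    have h4 : 2 / 3 * γ * (Q / 16) ≤ 2 / 3 * γ * (1 / 64) :=
      mul_le_mul_of_nonneg_left (by linarith) (by positivity)
    linarith
  have T2 : a * (x * x / 15) ≤ 1 / 100 * (Q * Q) := by
    have h1 : a * (x * x / 15) ≤ 2 * M * (x * x / 15) :=
      mul_le_mul_of_nonneg_right ha (by positivity)
    have h2 : 2 * M * (x * x / 15) = 2 / 15 * (M * (x * x)) := by ring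
    linarith
  have T3 : a * (8 / 3 * κ * γ) ≤ 9 / 100 * (Q * Q) := by
    have h1 : a * (8 / 3 * κ * γ) ≤ 2 * M * (8 / 3 * κ * γ) :=
      mul_le_mul_of_nonneg_right ha (by positivity)
    have h2 : 2 * M * (8 / 3 * κ * γ) = 16 / 3 * (κ * M) * γ := by ring
    rw [h2, hκM] at h1
    linarith
  have T4 : a * (2 * ρ * (2 * l : ℕ)) ≤ 1 / 100 * (Q * Q) := by
    have h1 : a * (2 * ρ * (2 * l : ℕ)) ≤ 2 * M * (2 * ρ * (2 * l : ℕ)) :=
      mul_le_mul_of_nonneg_right ha (by positivity)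
    have h2 : 2 * M * (2 * ρ * (2 * l : ℕ)) = 8 * (κ * M) * (x * x) * (l * x) := by
      rw [hρ]; push_cast; ring
    rw [h2, hκM] at h1
    have h3 : 8 * (1 / 64) * (x * x) * (l * x) ≤ 8 * (1 / 64) * (x * x) * (1 / 4) :=
      mul_le_mul_of_nonneg_left hlql (by positivity)
    linarith
  have T5 : b * (q (i + M + 1) * q (i + M + 1)) ≤ 1 / 100 * (Q * Q) := by
    rw [e1]
    have h1 : b * (Q * q M / 4 * (Q * q M / 4)) ≤ M * (Q * q M / 4 * (Q * q M / 4)) :=
      mul_le_mul_of_nonneg_right hb (by positivity)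
    have h2 : M * (Q * q M / 4 * (Q * q M / 4)) = (M * q M) * q M * (Q * Q) / 16 := by ring
    have h3 : (M * q M) * q M ≤ 1 / 4 * (1 / 4) := by
      apply mul_le_mul hMq (q_le_quarter hM) hqM.le (by norm_num)
    have h4 : (M * q M) * q M * (Q * Q) ≤ 1 / 4 * (1 / 4) * (Q * Q) :=
      mul_le_mul_of_nonneg_right h3 (by positivity)
    linarith
  have T6 : b * (2 * ρ) ≤ 1 / 100 * (Q * Q) := by
    have h1 : b * (2 * ρ) ≤ M * (2 * ρ) := mul_le_mul_of_nonneg_right hb (by positivity)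
    linarith
  have T7 : 4 * ρ ≤ 1 / 100 * (Q * Q) := by linarith
  have hQQ : 0 < Q * Q := by positivity
  have e : a * (γ * x / 3 + x * x / 15 + 8 / 3 * κ * γ + 2 * ρ * (2 * l : ℕ)) =
    a * (γ * x / 3) + a * (x * x / 15) + a * (8 / 3 * κ * γ) + a * (2 * ρ * (2 * l : ℕ)) := by ring
  have e' : b * (q (i + M + 1) * q (i + M + 1) + 2 * ρ) =
    b * (q (i + M + 1) * q (i + M + 1)) + b * (2 * ρ) := by ring
  rw [e, e']
  linarith

end Pool.Agent.Lib.MP_1e50ba_an
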